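import Pool.Agent.Y890.MV.Main
import Pool.Agent.Y124.StdC

/-!
# Independence in several variables from independence along one polynomial curve
-/

set_option autoImplicit false
set_option linter.unusedSectionVars false
set_option linter.unusedFintypeInType false

open Filter Topology MvPolynomial

namespace Pool.Agent.W5h46.GV

open Pool.Agent.Y890.MV (LocIndM)

variable {ι σ : Type} [Fintype ι]

/-- the polynomial near the curve, as a polynomial in the displacement: the homomorphism -/
noncomputable def nearHom (c : ι → Polynomial ℂ) :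
    MvPolynomial (ι ⊕ σ) ℂ →+* MvPolynomial ι (MvPolynomial (Option σ) ℂ) :=
  eval₂Hom ((C : MvPolynomial (Option σ) ℂ →+* MvPolynomial ι (MvPolynomial (Option σ) ℂ)).comp C)
    (Sum.elim (fun j => C (Polynomial.eval₂ C (X none) (c j)) + X j) fun i => C (X (some i)))

theorem nearHom_eval (c : ι → Polynomial ℂ) (P : MvPolynomial (ι ⊕ σ) ℂ) (s : ℂ) (η : σ → ℂ) (ζ : ι → ℂ) :
    eval₂Hom (eval fun o : Option σ => o.elim s η) ζ (nearHom c P) =
      eval (Sum.elim (fun j => (c j).eval s + ζ j) η) P := by
  have h : (eval₂Hom (eval fun o : Option σ => o.elim s η) ζ).comp (nearHom c) =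
      eval (Sum.elim (fun j => (c j).eval s + ζ j) η) := by
    refine MvPolynomial.ringHom_ext (fun a => ?_) fun o => ?_
    · simp [nearHom]
    · rcases o with j | i
      · have h1 : (eval fun o : Option σ => o.elim s η) (Polynomial.eval₂ C (X none) (c j)) = (c j).eval s := by
          rw [Polynomial.hom_eval₂, Polynomial.eval]
          congr 1
          · ext a
            simp
          · simp
        simp only [RingHom.comp_apply, nearHom, coe_eval₂Hom, eval₂_X, Sum.elim_inl, eval₂_add, eval₂_C, eval_X]
        rw [h1]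
      · simp [nearHom]
  exact RingHom.congr_fun h P

theorem nearHom_ne (c : ι → Polynomial ℂ) {P : MvPolynomial (ι ⊕ σ) ℂ} (hP : P ≠ 0) : nearHom c P ≠ 0 := by
  intro h0
  apply hP
  refine MvPolynomial.funext fun y => ?_
  have h1 := nearHom_eval c P 0 (fun i => y (Sum.inr i)) (fun j => y (Sum.inl j) - (c j).eval 0)
  rw [h0, map_zero] at h1
  rw [map_zero, h1]
  congr 2
  funext o
  rcases o with j | i <;> simp

/-- If the functions are algebraically independent along a polynomial curve through `t0` then they are so near `t0`. -/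
theorem locIndM_of_curve [Finite σ] (f : σ → (ι → ℂ) → ℂ) (c : ι → Polynomial ℂ) (s0 : ℂ)
    (hf : ∀ i, AnalyticAt ℂ (f i) fun j => (c j).eval s0)
    (h : Y124.LocInd (fun i s => f i fun j => (c j).eval s) s0) :
    LocIndM f fun j => (c j).eval s0 := by
  classical
  intro P hP
  by_contra hP0
  set R := nearHom c P with hR
  have hR0 : R ≠ 0 := nearHom_ne c hP0
  -- the least degree
  obtain ⟨α₀, hα₀, hmin⟩ := Finset.exists_min_image R.support (fun α => ∑ j, α j)
    (Finset.nonempty_iff_ne_empty.2 fun h0 => hR0 (support_eq_empty.1 h0))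
  set m := ∑ j, α₀ j with hm
  apply mem_support_iff.1 hα₀
  apply h
  have hcc : Continuous fun s : ℂ => (fun j => (c j).eval s : ι → ℂ) :=
    continuous_pi fun j => (c j).continuous
  have hct : Tendsto (fun s : ℂ => (fun j => (c j).eval s : ι → ℂ)) (𝓝 s0) (𝓝 fun j => (c j).eval s0) := hcc.tendsto s0
  have h1 : ∀ᶠ s in 𝓝 s0, ∀ᶠ t in 𝓝 (fun j => (c j).eval s : ι → ℂ), eval (Sum.elim t fun i => f i t) P = 0 :=
    hct.eventually (eventually_eventually_nhds.2 hP)
  have h2 : ∀ᶠ s in 𝓝 s0, ∀ i, ContinuousAt (f i) (fun j => (c j).eval s : ι → ℂ) := by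
    rw [eventually_all]
    intro i
    have h3 : ∀ᶠ t in 𝓝 (fun j => (c j).eval s0 : ι → ℂ), ContinuousAt (f i) t :=
      (hf i).eventually_analyticAt.mono fun t ht => ht.continuousAt
    exact hct.eventually h3
  filter_upwards [h1, h2] with s hs hsc
  -- the polynomial in the displacement
  set t : ι → ℂ := fun j => (c j).eval s with ht
  set A : MvPolynomial ι ℂ := ∑ α ∈ R.support.filter (fun α => ∑ j, α j = m),
    monomial α (eval (fun o : Option σ => o.elim s fun i => f i t) (coeff α R)) with hA
  have hA0 : A = 0 := by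
    refine MvPolynomial.funext fun ζ => ?_
    rw [map_zero]
    -- the function of the scaling parameter
    set θ : ℂ → ι → ℂ := fun ε j => t j + ε * ζ j with hθ
    have hθc : ContinuousAt θ 0 := by
      refine Continuous.continuousAt ?_
      exact continuous_pi fun j => continuous_const.add (continuous_id.mul continuous_const)
    have hθ0 : θ 0 = t := by
      funext j
      simp [hθ]
    set Ψ : ℂ → ℂ := fun ε => ∑ α ∈ R.support, ε ^ (∑ j, α j - m) * (∏ j, ζ j ^ α j) *
      eval (fun o : Option σ => o.elim s fun i => f i (θ ε)) (coeff α R) with hΨ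
    have hΨc : ContinuousAt Ψ 0 := by
      refine tendsto_finsetSum _ fun α _ => ?_
      refine Tendsto.mul (Tendsto.mul ?_ tendsto_const_nhds) ?_
      · exact (continuous_pow _).continuousAt
      · have h4 : ContinuousAt (fun ε : ℂ => (fun o : Option σ => o.elim s fun i => f i (θ ε) : Option σ → ℂ)) 0 := by
          rw [continuousAt_pi]
          intro o
          rcases o with _ | i
          · exact continuousAt_const
          · simp only [Option.elim_some]
            refine ContinuousAt.comp (g := f i) ?_ hθc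
            rw [hθ0]
            exact hsc i
        exact ((MvPolynomial.continuous_eval (coeff α R)).continuousAt).comp h4
    have hΨ0 : ∀ᶠ ε in 𝓝[≠] (0 : ℂ), Ψ ε = 0 := by
      have h5 : ∀ᶠ ε in 𝓝 (0 : ℂ), eval (Sum.elim (θ ε) fun i => f i (θ ε)) P = 0 := by
        have h6 : Tendsto θ (𝓝 0) (𝓝 t) := by
          have := hθc.tendsto
          rwa [hθ0] at this
        exact h6.eventually hs
      filter_upwards [h5.filter_mono nhdsWithin_le_nhds, self_mem_nhdsWithin] with ε hε hε0
      have h6 := nearHom_eval c P s (fun i => f i (θ ε)) (fun j => ε * ζ j)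
      have h7 : (Sum.elim (fun j => (c j).eval s + ε * ζ j) fun i => f i (θ ε)) =
          Sum.elim (θ ε) fun i => f i (θ ε) := rfl
      rw [h7, hε, ← hR, coe_eval₂Hom, eval₂_eq'] at h6
      have h8 : ε ^ m * Ψ ε = 0 := by
        rw [← h6, hΨ, Finset.mul_sum]
        refine Finset.sum_congr rfl fun α hα => ?_
        have h9 : ∏ j, (ε * ζ j) ^ α j = ε ^ (∑ j, α j) * ∏ j, ζ j ^ α j := by
          rw [← Finset.prod_pow_eq_pow_sum, ← Finset.prod_mul_distrib]
          exact Finset.prod_congr rfl fun j _ => mul_pow _ _ _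
        have h10 : ε ^ (∑ j, α j) = ε ^ m * ε ^ (∑ j, α j - m) := by
          rw [← pow_add]
          congr 1
          have := hmin α hα
          omega
        rw [h9, h10]
        ring
      exact (mul_eq_zero.1 h8).resolve_left (pow_ne_zero _ hε0)
    have hΨ00 : Ψ 0 = 0 := by
      have h5 : Tendsto Ψ (𝓝[≠] 0) (𝓝 (Ψ 0)) := hΨc.tendsto.mono_left nhdsWithin_le_nhds
      have h6 : Tendsto Ψ (𝓝[≠] 0) (𝓝 0) :=
        (tendsto_congr' hΨ0).2 tendsto_const_nhds
      exact tendsto_nhds_unique h5 h6
    rw [← hΨ00, hΨ, hA, map_sum, Finset.sum_filter]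
    refine Finset.sum_congr rfl fun α hα => ?_
    rw [hθ0]
    split_ifs with h6
    · rw [h6, Nat.sub_self, pow_zero, one_mul, eval_monomial, Finsupp.prod_fintype _ _ (fun _ => pow_zero _), mul_comm]
    · have h7 := hmin α hα
      rw [zero_pow (by omega), zero_mul, zero_mul]
  have hmem : α₀ ∈ R.support.filter (fun α => ∑ j, α j = m) := Finset.mem_filter.2 ⟨hα₀, rfl⟩
  have h3 : coeff α₀ A = 0 := by rw [hA0, coeff_zero]
  have h4 : coeff α₀ A = eval (fun o : Option σ => o.elim s fun i => f i t) (coeff α₀ R) := by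
    rw [hA, coeff_sum, Finset.sum_eq_single_of_mem α₀ hmem]
    · rw [coeff_monomial, if_pos rfl]
    · intro β _ hβ
      rw [coeff_monomial, if_neg hβ]
  rw [h4] at h3
  exact h3

end Pool.Agent.W5h46.GV
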