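import Pool.Agent.Y890.MV.Main

/-!
# Algebraic independence in several variables from independence on lines
-/

set_option autoImplicit false

open Filter Topology MvPolynomial

namespace Pool.Agent.W5h46.GV

open Pool.Agent.Y890.MV (LocIndM poly_zero)

variable {X : Type} [Fintype X] {U : Set (X → ℂ)}

/-- a point at which countably many polynomials do not vanish -/
theorem exists_generic {T : Type} [Countable T] (a : T → MvPolynomial X ℂ) (ha : ∀ t, a t ≠ 0) {V : Set (X → ℂ)}
    (hV : IsOpen V) (hne : V.Nonempty) : ∃ p ∈ V, ∀ t, eval p (a t) ≠ 0 := by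
  have ho : ∀ t, IsOpen {p : X → ℂ | eval p (a t) ≠ 0} := fun t =>
    isOpen_ne_fun (MvPolynomial.continuous_eval (a t)) continuous_const
  have hd : ∀ t, Dense {p : X → ℂ | eval p (a t) ≠ 0} := by
    intro t
    rw [dense_iff_inter_open]
    intro W hW hWne
    by_contra hcon
    apply ha t
    refine poly_zero hW hWne (a t) fun x hx => ?_
    by_contra h0
    exact hcon ⟨x, hx, h0⟩
  obtain ⟨p, hp, hpV⟩ := (dense_iInter_of_isOpen ho hd).exists_mem_open hV hne
  exact ⟨p, hpV, fun t => Set.mem_iInter.1 hp t⟩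

theorem eval_an {σ : Type} {f : σ → (X → ℂ) → ℂ} (hf : ∀ i, AnalyticOnNhd ℂ (f i) U) (P : MvPolynomial (X ⊕ σ) ℂ) :
    AnalyticOnNhd ℂ (fun x => eval (Sum.elim x fun i => f i x) P) U := by
  intro x hx
  induction P using MvPolynomial.induction_on with
  | C a =>
    simp only [eval_C]
    exact analyticAt_const
  | add p q hp hq =>
    simp only [map_add]
    exact hp.add hq
  | mul_X p o hp =>
    simp only [map_mul, eval_X]
    refine hp.mul ?_
    rcases o with j | i
    · exact (ContinuousLinearMap.proj (R := ℂ) (φ := fun _ : X => ℂ) j).analyticAt x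
    · exact hf i x hx

/-- local independence from relations at a dense set of points -/
theorem locIndM_of {σ : Type} (hUo : IsOpen U) (hU : IsPreconnected U) {f : σ → (X → ℂ) → ℂ}
    (hf : ∀ i, AnalyticOnNhd ℂ (f i) U)
    (H : ∀ P : MvPolynomial (X ⊕ σ) ℂ, (∀ x ∈ U, eval (Sum.elim x fun i => f i x) P = 0) →
      ∀ V ⊆ U, IsOpen V → V.Nonempty → ∃ p ∈ V, ∀ η : σ → ℂ, eval (Sum.elim p η) P = 0) :
    ∀ t ∈ U, LocIndM f t := by
  intro t ht P hP
  have h1 : ∀ x ∈ U, eval (Sum.elim x fun i => f i x) P = 0 :=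
    (eval_an hf P).eqOn_zero_of_preconnected_of_eventuallyEq_zero hU ht hP
  refine MvPolynomial.funext fun y => ?_
  rw [map_zero]
  set η : σ → ℂ := fun i => y (Sum.inr i) with hη
  set a : MvPolynomial X ℂ := aeval (Sum.elim (fun j => (MvPolynomial.X j : MvPolynomial X ℂ)) fun i => C (η i)) P with ha
  have hev : ∀ x : X → ℂ, eval x a = eval (Sum.elim x η) P := by
    intro x
    have h2 : (eval x).comp (aeval (Sum.elim (fun j => (MvPolynomial.X j : MvPolynomial X ℂ)) fun i => C (η i)) :
        MvPolynomial (X ⊕ σ) ℂ →ₐ[ℂ] MvPolynomial X ℂ).toRingHom = eval (Sum.elim x η) := by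
      refine MvPolynomial.ringHom_ext (fun c => ?_) fun o => ?_
      · simp
      · rcases o with j | i <;> simp
    exact RingHom.congr_fun h2 P
  have ha0 : a = 0 := by
    refine poly_zero hUo ⟨t, ht⟩ a fun x hx => ?_
    by_contra h0
    have ho : IsOpen (U ∩ {p : X → ℂ | eval p a ≠ 0}) :=
      hUo.inter (isOpen_ne_fun (MvPolynomial.continuous_eval a) continuous_const)
    obtain ⟨p, ⟨_, hp⟩, h3⟩ := H P h1 _ Set.inter_subset_left ho ⟨x, hx, h0⟩
    apply hp
    rw [hev]
    exact h3 η
  have h2 : y = Sum.elim (fun j => y (Sum.inl j)) η := by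
    funext o
    rcases o with j | i <;> rfl
  rw [h2, ← hev, ha0, map_zero]

end Pool.Agent.W5h46.GV
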