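import Pool.Agent.W5h46.GV.Ind
import Pool.Agent.W5h46.GV.Multi
import Pool.Agent.W5h46.HL.Fun

/-!
# Gamma and Hurwitz zeta values at affine forms
-/

set_option autoImplicit false
set_option linter.unusedSectionVars false

open Filter Topology MvPolynomial

namespace Pool.Agent.W5h46.GV

open Pool.Agent.W5h46.HL Pool.Agent.Y890.MV

variable {X I : Type} [Fintype X] [Fintype I]

/-- the affine forms -/
def aff (L : I → X → ℤ) (s : I → ℂ) (i : I) (x : X → ℂ) : ℂ := ∑ j, (L i j : ℂ) * x j + s i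

/-- the domain -/
def UU (L : I → X → ℤ) (s : I → ℂ) : Set (X → ℂ) := {x | ∀ i, 0 < (aff L s i x).re}

/-- two forms are not proportional, or equal with shifts which do not differ by an integer -/
def Apart (L : I → X → ℤ) (s : I → ℂ) : Prop :=
  ∀ i i', i ≠ i' → (∀ a b : ℕ, 0 < a → 0 < b → ∃ j, (a : ℤ) * L i j ≠ b * L i' j) ∨
    (L i = L i' ∧ ∀ m : ℤ, s i - s i' ≠ m)

/-- the polygamma functions -/
noncomputable def pg {w : ℕ} (k : Fin w) (z : ℂ) : ℂ := if (k : ℕ) = 0 then dgm z else hz k z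

/-- the functions -/
noncomputable def fn (L : I → X → ℤ) (s : I → ℂ) {w : ℕ} (y : I ⊕ (I × Fin w)) (x : X → ℂ) : ℂ :=
  Sum.elim (fun i => Complex.Gamma (aff L s i x)) (fun y : I × Fin w => pg y.2 (aff L s y.1 x)) y

theorem aff_cont (L : I → X → ℤ) (s : I → ℂ) (i : I) : Continuous (aff L s i) := by
  unfold aff
  fun_prop

theorem aff_an (L : I → X → ℤ) (s : I → ℂ) (i : I) (x : X → ℂ) : AnalyticAt ℂ (aff L s i) x := by
  unfold aff
  refine AnalyticAt.add ?_ analyticAt_const
  refine Finset.analyticAt_fun_sum _ fun j _ => analyticAt_const.mul ?_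
  exact (ContinuousLinearMap.proj (R := ℂ) (φ := fun _ : X => ℂ) j).analyticAt x

theorem UU_open (L : I → X → ℤ) (s : I → ℂ) : IsOpen (UU L s) := by
  have : UU L s = ⋂ i, {x | 0 < (aff L s i x).re} := by
    ext x
    simp [UU]
  rw [this]
  exact isOpen_iInter_of_finite fun i => isOpen_lt continuous_const (Complex.continuous_re.comp (aff_cont L s i))

theorem UU_convex (L : I → X → ℤ) (s : I → ℂ) : Convex ℝ (UU L s) := by
  intro x hx y hy a b ha hb hab i
  have h1 : aff L s i (a • x + b • y) = a * aff L s i x + b * aff L s i y := by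
    simp only [aff, Pi.add_apply, Pi.smul_apply, Complex.real_smul]
    have h2 : s i = a * s i + b * s i := by
      rw [← add_mul, ← Complex.ofReal_add, hab, Complex.ofReal_one, one_mul]
    rw [mul_add, mul_add, Finset.mul_sum, Finset.mul_sum]
    have h3 : ∑ j, (L i j : ℂ) * (a * x j + b * y j) = ∑ j, (a : ℂ) * ((L i j : ℂ) * x j) +
        ∑ j, (b : ℂ) * ((L i j : ℂ) * y j) := by
      rw [← Finset.sum_add_distrib]
      exact Finset.sum_congr rfl fun j _ => by ring
    rw [h3]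
    linear_combination h2
  rw [h1, Complex.add_re, Complex.re_ofReal_mul, Complex.re_ofReal_mul]
  have h2 := hx i
  have h3 := hy i
  rcases eq_or_lt_of_le ha with h4 | h4
  · have : b = 1 := by linarith
    rw [← h4, this]
    linarith
  · have h5 : 0 ≤ b * (aff L s i y).re := mul_nonneg hb h3.le
    have h6 : 0 < a * (aff L s i x).re := mul_pos h4 h2
    linarith

theorem gam_an {z : ℂ} (hz : 0 < z.re) : AnalyticAt ℂ Complex.Gamma z := by
  have hopen : IsOpen {z : ℂ | 0 < z.re} := isOpen_lt continuous_const Complex.continuous_re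
  have hG : DifferentiableOn ℂ Complex.Gamma {z : ℂ | 0 < z.re} := fun z hz =>
    (Complex.differentiableAt_Gamma z (ne_neg hz)).differentiableWithinAt
  exact hG.analyticAt (hopen.mem_nhds hz)

theorem pg_an {w : ℕ} (k : Fin w) {z : ℂ} (hz : 0 < z.re) : AnalyticAt ℂ (pg k) z := by
  unfold pg
  by_cases hk : (k : ℕ) = 0
  · simp only [hk, if_true]
    exact dgm_an hz
  · simp only [hk, if_false]
    exact hz_an (Nat.one_le_iff_ne_zero.2 hk) hz

theorem pg_diff {w : ℕ} (k : Fin w) {z : ℂ} (hz : 0 < z.re) :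
    pg k (z + 1) = pg k z - (if (k : ℕ) = 0 then -1 else 1) * (z ^ ((k : ℕ) + 1))⁻¹ := by
  unfold pg
  by_cases hk : (k : ℕ) = 0
  · simp only [hk, if_true]
    exact dgm_diff hz
  · simp only [hk, if_false]
    exact hz_diff (Nat.one_le_iff_ne_zero.2 hk) hz

theorem fn_an (L : I → X → ℤ) (s : I → ℂ) {w : ℕ} (y : I ⊕ (I × Fin w)) : AnalyticOnNhd ℂ (fn L s y) (UU L s) := by
  intro x hx
  rcases y with i | y
  · exact AnalyticAt.comp (g := Complex.Gamma) (gam_an (hx i)) (aff_an L s i x)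
  · exact AnalyticAt.comp (g := pg y.2) (pg_an y.2 (hx y.1)) (aff_an L s y.1 x)

/-- the polynomials which must not vanish -/
noncomputable def gp (L : I → X → ℤ) (s : I → ℂ) (n : I → ℕ) (t : (Σ i, Fin (n i)) × (Σ i, Fin (n i)) × ℤ) :
    MvPolynomial X ℂ :=
  C (n t.1.1 : ℂ) * (∑ j, C (L t.2.1.1 j : ℂ) * MvPolynomial.X j + C (s t.2.1.1 + ((t.2.1.2 : ℕ) : ℂ))) -
    C (n t.2.1.1 : ℂ) * (∑ j, C (L t.1.1 j : ℂ) * MvPolynomial.X j + C (s t.1.1 + ((t.1.2 : ℕ) : ℂ))) -
    C ((t.2.2 : ℂ) * n t.1.1 * n t.2.1.1)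

theorem gp_eval (L : I → X → ℤ) (s : I → ℂ) (n : I → ℕ) (t : (Σ i, Fin (n i)) × (Σ i, Fin (n i)) × ℤ) (p : X → ℂ) :
    eval p (gp L s n t) = n t.1.1 * (aff L s t.2.1.1 p + ((t.2.1.2 : ℕ) : ℂ)) -
      n t.2.1.1 * (aff L s t.1.1 p + ((t.1.2 : ℕ) : ℂ)) - (t.2.2 : ℂ) * n t.1.1 * n t.2.1.1 := by
  simp only [gp, aff, map_sub, map_mul, map_add, map_sum, eval_C, eval_X]
  ring

theorem gp_ne (L : I → X → ℤ) (s : I → ℂ) (hLs : Apart L s) (n : I → ℕ) (hn : ∀ i, 0 < n i)
    (hnL : ∀ i i', L i = L i' → n i = n i')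
    (t : (Σ i, Fin (n i)) × (Σ i, Fin (n i)) × ℤ) (ht : t.1 ≠ t.2.1) : gp L s n t ≠ 0 := by
  classical
  obtain ⟨⟨i, j⟩, ⟨i', j'⟩, m⟩ := t
  intro h0
  have h1 : ∀ p : X → ℂ, (n i : ℂ) * (aff L s i' p + ((j' : ℕ) : ℂ)) - n i' * (aff L s i p + ((j : ℕ) : ℂ)) -
      (m : ℂ) * n i * n i' = 0 := by
    intro p
    have := gp_eval L s n ⟨⟨i, j⟩, ⟨i', j'⟩, m⟩ p
    rw [h0, map_zero] at this
    exact this.symm
  have haff0 : ∀ i, aff L s i 0 = s i := fun i => by simp [aff]
  have haff1 : ∀ i y, aff L s i (Pi.single y 1) = L i y + s i := by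
    intro i y
    rw [aff, Finset.sum_eq_single y]
    · simp
    · intro z _ hz
      rw [Pi.single_eq_of_ne hz, mul_zero]
    · simp
  have h2 := h1 0
  rw [haff0, haff0] at h2
  have h3 : ∀ y, (n i' : ℤ) * L i y = n i * L i' y := by
    intro y
    have h4 := h1 (Pi.single y 1)
    rw [haff1, haff1] at h4
    have h5 : ((n i' : ℂ)) * (L i y : ℂ) = n i * (L i' y : ℂ) := by linear_combination h2 - h4
    exact_mod_cast h5
  have hni : (n i : ℂ) ≠ 0 := by exact_mod_cast (hn i).ne'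
  by_cases hii : i = i'
  · subst hii
    have h4 : ((j' : ℕ) : ℂ) - ((j : ℕ) : ℂ) - m * n i = 0 := by
      apply mul_left_cancel₀ hni
      linear_combination h2
    have h5 : ((j' : ℕ) : ℤ) - ((j : ℕ) : ℤ) = m * n i := by
      have : (((j' : ℕ) : ℤ) : ℂ) - (((j : ℕ) : ℤ) : ℂ) = ((m * n i : ℤ) : ℂ) := by
        push_cast
        linear_combination h4
      exact_mod_cast this
    have hj := j.2
    have hj' := j'.2
    have hm : m = 0 := by
      have hn' : (0 : ℤ) < n i := by exact_mod_cast hn i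
      have h6 : m * n i < 1 * n i := by rw [← h5]; omega
      have h7 : (-1) * (n i : ℤ) < m * n i := by rw [← h5]; omega
      have h8 := lt_of_mul_lt_mul_right h6 hn'.le
      have h9 := lt_of_mul_lt_mul_right h7 hn'.le
      omega
    rw [hm, zero_mul] at h5
    apply ht
    have : j = j' := Fin.ext (by omega)
    rw [this]
  · rcases hLs i i' hii with h4 | ⟨h4, h5⟩
    · obtain ⟨y, hy⟩ := h4 (n i') (n i) (hn i') (hn i)
      exact hy (h3 y)
    · have h6 := hnL i i' h4
      have h6' : (n i' : ℂ) = n i := by rw [h6]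
      have h7 : s i - s i' = ((((j' : ℕ) : ℤ) - ((j : ℕ) : ℤ) - m * n i : ℤ) : ℂ) := by
        push_cast
        apply mul_left_cancel₀ hni
        linear_combination -h2 - (s i + ((j : ℕ) : ℂ) + m * n i) * h6'
      exact h5 _ h7

/-- **Local algebraic independence.** -/
theorem fam_locInd (L : I → X → ℤ) (s : I → ℂ) (hLs : Apart L s) (v : X → ℤ) (hv : ∀ i, 0 < ∑ j, L i j * v j) (w : ℕ) :
    ∀ x ∈ UU L s, LocIndM (fun y : I ⊕ (I × Fin w) => fn L s y) x := by
  classical
  refine locIndM_of (UU_open L s) (UU_convex L s).isPreconnected (fn_an L s) fun P hP V hVU hVo hVne => ?_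
  set n : I → ℕ := fun i => (∑ j, L i j * v j).toNat with hn
  have hnz : ∀ i, ((n i : ℕ) : ℤ) = ∑ j, L i j * v j := fun i => Int.toNat_of_nonneg (hv i).le
  have hn0 : ∀ i, 0 < n i := fun i => by
    have := hv i
    have := hnz i
    omega
  obtain ⟨p, hpV, hp⟩ := exists_generic (T := {t : (Σ i, Fin (n i)) × (Σ i, Fin (n i)) × ℤ // t.1 ≠ t.2.1})
    (fun t => gp L s n t.1) (fun t => gp_ne L s hLs n hn0 (fun i i' h => by simp only [hn, h]) t.1 t.2) hVo hVne
  refine ⟨p, hpV, fun η => ?_⟩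
  have hpU := hVU hpV
  have hz : ∀ u u' : Σ i, Fin (n i), ∀ m : ℤ, u ≠ u' →
      zz n (fun i => aff L s i p) u - zz n (fun i => aff L s i p) u' ≠ m := by
    intro u u' m huu h
    apply hp ⟨⟨u, u', m⟩, huu⟩
    change eval p (gp L s n ⟨u, u', m⟩) = 0
    rw [gp_eval]
    have h1 : (n u.1 : ℂ) ≠ 0 := by exact_mod_cast (hn0 u.1).ne'
    have h2 : (n u'.1 : ℂ) ≠ 0 := by exact_mod_cast (hn0 u'.1).ne'
    simp only [zz] at h
    field_simp at h
    linear_combination h
  -- the restriction of the polynomial to the line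
  set Q : MvPolynomial (Option (I ⊕ (I × Fin w))) ℂ :=
    aeval (Sum.elim (fun j => C (p j) + C (v j : ℂ) * MvPolynomial.X none) fun y => MvPolynomial.X (some y)) P with hQ
  have hev : ∀ (x : ℂ) (θ : I ⊕ (I × Fin w) → ℂ), eval (fun o => o.elim x θ) Q =
      eval (Sum.elim (fun j => p j + v j * x) θ) P := by
    intro x θ
    have h2 : (eval (fun o : Option (I ⊕ (I × Fin w)) => o.elim x θ)).comp
        (aeval (Sum.elim (fun j => C (p j) + C (v j : ℂ) * MvPolynomial.X none) fun y => MvPolynomial.X (some y)) :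
        MvPolynomial (X ⊕ (I ⊕ (I × Fin w))) ℂ →ₐ[ℂ] MvPolynomial (Option (I ⊕ (I × Fin w))) ℂ).toRingHom =
        eval (Sum.elim (fun j => p j + v j * x) θ) := by
      refine MvPolynomial.ringHom_ext (fun c => ?_) fun o => ?_
      · simp
      · rcases o with j | i <;> simp
    exact RingHom.congr_fun h2 P
  have haffx : ∀ (i : I) (x : ℂ), aff L s i (fun j => p j + v j * x) = n i * x + aff L s i p := by
    intro i x
    have h1 : (n i : ℂ) = ∑ j, (L i j : ℂ) * v j := by
      have := congrArg (fun m : ℤ => (m : ℂ)) (hnz i)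
      push_cast at this
      exact this
    simp only [aff]
    rw [h1, Finset.sum_mul]
    have h3 : ∑ j, (L i j : ℂ) * (p j + v j * x) = ∑ j, (L i j : ℂ) * p j + ∑ j, (L i j : ℂ) * v j * x := by
      rw [← Finset.sum_add_distrib]
      exact Finset.sum_congr rfl fun j _ => by ring
    rw [h3]
    ring
  have hQ0 : Q = 0 := by
    refine line n (fun i => aff L s i p) w (fun k => if (k : ℕ) = 0 then -1 else 1) hn0 hz
      (fun k => by split_ifs <;> norm_num) Complex.Gamma pg (fun z hz => Complex.Gamma_ne_zero (ne_neg hz))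
      (fun z hz => Complex.Gamma_add_one z (fun h => by rw [h] at hz; simp at hz)) (fun k z hz => pg_diff k hz) Q ?_
    filter_upwards [eventually_gt_atTop (0 : ℝ)] with x hx
    rw [hev]
    have hxU : (fun j => p j + v j * (x : ℂ)) ∈ UU L s := by
      intro i
      rw [haffx, Complex.add_re, Complex.mul_re, Complex.natCast_re, Complex.natCast_im, Complex.ofReal_re, zero_mul,
        sub_zero]
      have h1 := hpU i
      have h2 : (0 : ℝ) ≤ n i * x := by positivity
      linarith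
    rw [← hP _ hxU]
    congr 2
    funext y
    rcases y with i | y
    · simp only [Sum.elim_inl, fn, haffx]
    · simp only [Sum.elim_inr, fn, haffx]
  have h1 := hev 0 η
  rw [hQ0, map_zero] at h1
  rw [h1]
  congr 2
  funext j
  simp

end Pool.Agent.W5h46.GV
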