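import Pool.Agent.W5h46.GV.Multi

/-!
# Restriction to a generic line

Analytic functions of several variables which are algebraically independent over the field of rational
functions of the variables remain algebraically independent over the complex numbers on a generic line.
-/

set_option autoImplicit false
set_option linter.unusedSectionVars false

open Filter Topology MvPolynomial

namespace Pool.Agent.W5h46.GV

open Pool.Agent.Y890.MV (LocIndM)

variable {ι σ : Type} [Fintype ι]

/-- the homogeneous polynomials of an expansion -/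
noncomputable def hpoly (p : FormalMultilinearSeries ℂ (ι → ℂ) ℂ) (m : ℕ) : MvPolynomial ι ℂ := by
  classical
  exact ∑ r : Fin m → ι, C (p m fun i => Pi.single (r i) 1) * ∏ i, X (r i)

theorem hpoly_eval (p : FormalMultilinearSeries ℂ (ι → ℂ) ℂ) (m : ℕ) (v : ι → ℂ) :
    eval v (hpoly p m) = p m fun _ => v := by
  classical
  have h1 : (fun _ : Fin m => v) = fun _ : Fin m => ∑ j, v j • (Pi.single j (1 : ℂ) : ι → ℂ) := by
    funext _
    conv_lhs => rw [← Finset.univ_sum_single v]
    refine Finset.sum_congr rfl fun j _ => ?_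
    rw [← Pi.single_smul, smul_eq_mul, mul_one]
  rw [h1, ContinuousMultilinearMap.map_sum]
  unfold hpoly
  rw [map_sum]
  refine Finset.sum_congr rfl fun r _ => ?_
  rw [ContinuousMultilinearMap.map_smul_univ, smul_eq_mul]
  simp only [map_mul, map_prod, eval_C, eval_X]
  ring

/-- the coefficients of the restriction to a line -/
theorem line_coeff {g : (ι → ℂ) → ℂ} {q : FormalMultilinearSeries ℂ (ι → ℂ) ℂ} {x₀ : ι → ℂ}
    (hg : HasFPowerSeriesAt g q x₀) (v : ι → ℂ) :
    ∃ q' : FormalMultilinearSeries ℂ ℂ ℂ, HasFPowerSeriesAt (fun s : ℂ => g (x₀ + s • v)) q' 0 ∧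
      ∀ m, q'.coeff m = eval v (hpoly q m) := by
  have h0 : HasFPowerSeriesAt (fun y => g (x₀ + y)) q 0 := by
    have h1 := hg.comp_sub (-x₀)
    rw [add_neg_cancel] at h1
    refine h1.congr (Eventually.of_forall fun y => ?_)
    change g (y - -x₀) = g (x₀ + y)
    congr 1
    funext j
    simp [add_comm]
  set u : ℂ →L[ℂ] (ι → ℂ) := ContinuousLinearMap.toSpanSingleton ℂ v with hu
  have hu0 : u 0 = 0 := map_zero u
  have h1 : HasFPowerSeriesAt (fun y => g (x₀ + y)) q (u 0) := by rw [hu0]; exact h0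
  obtain ⟨r, hr⟩ := h1
  have h2 := hr.compContinuousLinearMap (u := u) (x := 0)
  refine ⟨q.compContinuousLinearMap u, h2.hasFPowerSeriesAt, fun m => ?_⟩
  rw [hpoly_eval, FormalMultilinearSeries.coeff, FormalMultilinearSeries.compContinuousLinearMap_apply]
  congr 1
  funext i
  simp [hu]

theorem sum_series {κ : Type} (S : Finset κ) (g : κ → ℂ → ℂ) (q : κ → FormalMultilinearSeries ℂ ℂ ℂ)
    (hq : ∀ k, HasFPowerSeriesAt (g k) (q k) 0) (p : κ → ℂ) :
    HasFPowerSeriesAt (fun s => ∑ k ∈ S, p k * g k s) (∑ k ∈ S, p k • q k) 0 := by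
  classical
  induction S using Finset.induction_on with
  | empty =>
    simp only [Finset.sum_empty]
    have h1 := (hasFPowerSeriesAt_const (𝕜 := ℂ) (c := (1 : ℂ)) (e := (0 : ℂ))).const_smul (c := (0 : ℂ))
    simp only [zero_smul] at h1
    exact h1
  | insert a S ha ih =>
    simp only [Finset.sum_insert ha]
    exact ((hq a).const_smul (c := p a)).add ih

/-- a relation on a line gives relations between the homogeneous polynomials -/
theorem line_rel {κ : Type} (S : Finset κ) (g : κ → (ι → ℂ) → ℂ) (q : κ → FormalMultilinearSeries ℂ (ι → ℂ) ℂ)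
    {x₀ : ι → ℂ} (hq : ∀ k, HasFPowerSeriesAt (g k) (q k) x₀) (p : κ → ℂ) (v : ι → ℂ)
    (h : ∀ᶠ s in 𝓝 (0 : ℂ), ∑ k ∈ S, p k * g k (x₀ + s • v) = 0) (m : ℕ) :
    ∑ k ∈ S, p k * eval v (hpoly (q k) m) = 0 := by
  choose q' hq' hc using fun k => line_coeff (hq k) v
  have h1 := sum_series S (fun k s => g k (x₀ + s • v)) q' hq' p
  have h2 : (∑ k ∈ S, p k • q' k) = 0 := h1.eq_zero_of_eventually h
  have h3 : (∑ k ∈ S, p k • q' k).coeff m = ∑ k ∈ S, p k * (q' k).coeff m := by
    have h4 : (∑ k ∈ S, p k • q' k) m = ∑ k ∈ S, p k • q' k m := Finset.sum_apply m S fun k => p k • q' k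
    simp only [FormalMultilinearSeries.coeff]
    rw [h4, _root_.sum_apply]
    rfl
  rw [h2] at h3
  simp only [hc] at h3
  rw [← h3]
  simp [FormalMultilinearSeries.coeff]

/-- a matrix with infinitely many rows all of whose maximal minors vanish has a kernel -/
theorem exists_ker {K κ : Type} [Field K] [Fintype κ] [DecidableEq κ] (G : ℕ → κ → K)
    (hG : ∀ r : κ → ℕ, (Matrix.of fun i j => G (r i) j).det = 0) :
    ∃ p : κ → K, p ≠ 0 ∧ ∀ N, ∑ j, G N j * p j = 0 := by
  by_cases hs : Submodule.span K (Set.range G) = ⊤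
  · exfalso
    obtain ⟨f, hf, -, hl⟩ := Submodule.exists_fun_fin_finrank_span_eq K (Set.range G)
    choose N hN using hf
    have hcard : Fintype.card κ = Fintype.card (Fin (Module.finrank K (Submodule.span K (Set.range G)))) := by
      rw [hs, finrank_top, Module.finrank_fintype_fun_eq_card, Fintype.card_fin]
    set e := Fintype.equivOfCardEq hcard with he
    have h1 : LinearIndependent K (Matrix.of fun i j => G (N (e i)) j : Matrix κ κ K).row := by
      have h2 : (Matrix.of fun i j => G (N (e i)) j : Matrix κ κ K).row = f ∘ e := by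
        funext i
        exact hN (e i)
      rw [h2]
      exact hl.comp _ e.injective
    rw [Matrix.linearIndependent_rows_iff_isUnit, Matrix.isUnit_iff_isUnit_det, hG] at h1
    exact not_isUnit_zero h1
  · obtain ⟨φ, hφ, hle⟩ := Submodule.exists_le_ker_of_lt_top _ (lt_top_iff_ne_top.2 hs)
    refine ⟨fun j => φ (Pi.single j 1), fun h0 => hφ ?_, fun M => ?_⟩
    · apply LinearMap.pi_ext'
      intro j
      apply LinearMap.ext_ring
      exact congrFun h0 j
    · have h1 : φ (G M) = 0 := hle (Submodule.subset_span ⟨M, rfl⟩)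
      rw [← h1]
      conv_rhs => rw [← Finset.univ_sum_single (G M)]
      rw [map_sum]
      refine Finset.sum_congr rfl fun j _ => ?_
      have h2 : (Pi.single j (G M j) : κ → K) = G M j • Pi.single j 1 := by
        rw [← Pi.single_smul, smul_eq_mul, mul_one]
      rw [h2, map_smul, smul_eq_mul]

/-- the same over the polynomial ring -/
theorem exists_kerP {κ : Type} [Fintype κ] [DecidableEq κ] (G : ℕ → κ → MvPolynomial ι ℂ)
    (hG : ∀ r : κ → ℕ, (Matrix.of fun i j => G (r i) j).det = 0) :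
    ∃ p : κ → MvPolynomial ι ℂ, p ≠ 0 ∧ ∀ N, ∑ j, G N j * p j = 0 := by
  classical
  set K := FractionRing (MvPolynomial ι ℂ) with hK
  obtain ⟨p, hp, h⟩ := exists_ker (K := K) (fun N j => algebraMap _ K (G N j)) (by
    intro r
    have h1 : (Matrix.of fun i j => algebraMap _ K (G (r i) j)) =
        (algebraMap _ K).mapMatrix (Matrix.of fun i j => G (r i) j) := by
      ext i j
      rfl
    rw [h1, ← RingHom.map_det, hG, map_zero])
  obtain ⟨b, hb⟩ := IsLocalization.exist_integer_multiples_of_finite (nonZeroDivisors (MvPolynomial ι ℂ)) p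
  choose c hc using hb
  have hb0 : algebraMap (MvPolynomial ι ℂ) K b ≠ 0 := by
    rw [Ne, IsFractionRing.to_map_eq_zero_iff]
    exact nonZeroDivisors.coe_ne_zero b
  have hinj : Function.Injective (algebraMap (MvPolynomial ι ℂ) K) := IsFractionRing.injective _ _
  refine ⟨c, fun h0 => hp ?_, fun N => hinj ?_⟩
  · funext j
    have h1 := hc j
    rw [h0, Pi.zero_apply, map_zero, Algebra.smul_def] at h1
    exact (mul_eq_zero.1 h1.symm).resolve_left hb0
  · rw [map_sum, map_zero]
    have h1 : ∀ j, algebraMap (MvPolynomial ι ℂ) K (G N j * c j) =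
        algebraMap (MvPolynomial ι ℂ) K b * (algebraMap (MvPolynomial ι ℂ) K (G N j) * p j) := by
      intro j
      have h2 : algebraMap (MvPolynomial ι ℂ) K (c j) = algebraMap (MvPolynomial ι ℂ) K b * p j :=
        (hc j).trans (Algebra.smul_def _ _)
      rw [map_mul, h2]
      ring
    simp only [h1]
    rw [← Finset.mul_sum, h N, mul_zero]

/-- the monomials in the functions -/
def mon [Fintype σ] (f : σ → (ι → ℂ) → ℂ) (β : σ →₀ ℕ) (x : ι → ℂ) : ℂ := ∏ i, f i x ^ β i

theorem eval_mon [Fintype σ] (f : σ → (ι → ℂ) → ℂ) (P : MvPolynomial σ ℂ) (x : ι → ℂ) :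
    eval (fun i => f i x) P = ∑ β ∈ P.support, P.coeff β * mon f β x := by
  rw [eval_eq']
  rfl

/-- **restriction to a generic line**: outside countably many hypersurfaces of directions the restrictions
are algebraically independent over `ℂ` -/
theorem gen_line [Fintype σ] (f : σ → (ι → ℂ) → ℂ) (x₀ : ι → ℂ) (hf : ∀ i, AnalyticAt ℂ (f i) x₀)
    (h : LocIndM f x₀) :
    ∃ (T : Type) (_ : Countable T) (a : T → MvPolynomial ι ℂ), (∀ t, a t ≠ 0) ∧
      ∀ v, (∀ t, eval v (a t) ≠ 0) → ∀ P : MvPolynomial σ ℂ,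
        (∀ᶠ s in 𝓝 (0 : ℂ), eval (fun i => f i (x₀ + s • v)) P = 0) → P = 0 := by
  classical
  have hmon : ∀ β : σ →₀ ℕ, AnalyticAt ℂ (mon f β) x₀ := fun β =>
    Finset.analyticAt_fun_prod _ fun i _ => (hf i).pow _
  choose q hq using fun β => hmon β
  set G : (S : Finset (σ →₀ ℕ)) → ℕ → S → MvPolynomial ι ℂ := fun S N β => hpoly (q β) N with hG
  refine ⟨Σ S : Finset (σ →₀ ℕ), {r : S → ℕ // (Matrix.of fun i j => G S (r i) j).det ≠ 0}, inferInstance,
    fun t => (Matrix.of fun i j => G t.1 (t.2.1 i) j).det, fun t => t.2.2, ?_⟩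
  intro v hv P hP
  by_contra hP0
  set S := P.support with hS
  have hSne : S.Nonempty := Finset.nonempty_iff_ne_empty.2 fun h0 => hP0 (support_eq_empty.1 h0)
  have hrel : ∀ N, ∑ β : S, eval v (G S N β) * P.coeff β.1 = 0 := by
    intro N
    have h1 := line_rel S (mon f) q hq (fun β => P.coeff β) v (by
      filter_upwards [hP] with s hs
      rw [← hs, eval_mon]) N
    rw [← h1, ← Finset.sum_coe_sort S]
    exact Finset.sum_congr rfl fun β _ => mul_comm _ _
  have hdet : ∀ r : S → ℕ, (Matrix.of fun i j => G S (r i) j).det = 0 := by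
    intro r
    by_contra h0
    apply hv ⟨S, r, h0⟩
    change eval v (Matrix.of fun i j => G S (r i) j).det = 0
    rw [RingHom.map_det, ← Matrix.exists_mulVec_eq_zero_iff]
    obtain ⟨β₀, hβ₀⟩ := hSne
    refine ⟨fun β => P.coeff β.1, fun h1 => ?_, ?_⟩
    · exact mem_support_iff.1 hβ₀ (congrFun h1 ⟨β₀, hβ₀⟩)
    · funext i
      exact hrel (r i)
  obtain ⟨p, hp, hpN⟩ := exists_kerP (G S) hdet
  -- the relation near `x₀`
  have hnear : ∀ᶠ y in 𝓝 (0 : ι → ℂ), ∑ β : S, eval y (p β) * mon f β (x₀ + y) = 0 := by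
    have h1 : ∀ᶠ y in 𝓝 (0 : ι → ℂ), ∀ β : S, HasSum (fun n => q β n fun _ => y) (mon f β (x₀ + y)) := by
      rw [eventually_all]
      exact fun β => (hq β).eventually_hasSum
    filter_upwards [h1] with y hy
    have h2 : HasSum (fun n => ∑ β : S, eval y (p β) * q β n fun _ => y)
        (∑ β : S, eval y (p β) * mon f β (x₀ + y)) :=
      hasSum_sum fun β _ => (hy β).mul_left _
    have h3 : (fun n => ∑ β : S, eval y (p β) * q β n fun _ => y) = fun _ => 0 := by
      funext n
      have h4 := congrArg (eval y) (hpN n)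
      rw [map_sum, map_zero] at h4
      rw [← h4]
      refine Finset.sum_congr rfl fun β _ => ?_
      rw [map_mul, hG, hpoly_eval, mul_comm]
    rw [h3] at h2
    exact h2.unique hasSum_zero
  -- the polynomial
  set sh : MvPolynomial ι ℂ →ₐ[ℂ] MvPolynomial (ι ⊕ σ) ℂ := aeval fun j => X (Sum.inl j) - C (x₀ j) with hsh
  set R : MvPolynomial (ι ⊕ σ) ℂ := ∑ β : S, sh (p β) * ∏ i, X (Sum.inr i) ^ β.1 i with hR
  have hRe : ∀ (x : ι → ℂ) (y : σ → ℂ), eval (Sum.elim x y) R = ∑ β : S, eval (x - x₀) (p β) * ∏ i, y i ^ β.1 i := by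
    intro x y
    rw [hR, map_sum]
    refine Finset.sum_congr rfl fun β _ => ?_
    rw [map_mul, map_prod]
    congr 1
    · have h2 : (eval (Sum.elim x y)).comp sh.toRingHom = eval (x - x₀) := by
        refine MvPolynomial.ringHom_ext (fun c => ?_) fun o => ?_
        · simp [hsh]
        · simp [hsh]
      exact RingHom.congr_fun h2 (p β)
    · refine Finset.prod_congr rfl fun i _ => ?_
      simp
  have hR0 : R = 0 := by
    apply h
    have h1 : Tendsto (fun x : ι → ℂ => x - x₀) (𝓝 x₀) (𝓝 0) := by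
      have h2 : Continuous fun x : ι → ℂ => x - x₀ := continuous_id.sub continuous_const
      have h3 := h2.tendsto x₀
      rwa [sub_self] at h3
    filter_upwards [h1.eventually hnear] with x hx
    rw [hRe, ← hx]
    refine Finset.sum_congr rfl fun β _ => ?_
    rw [add_sub_cancel, mon]
  apply hp
  funext β
  refine MvPolynomial.funext fun x => ?_
  -- the polynomial in `y`
  set Q : MvPolynomial σ ℂ := ∑ β : S, monomial β.1 (eval x (p β)) with hQ
  have hQ0 : Q = 0 := by
    refine MvPolynomial.funext fun y => ?_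
    have h1 := hRe (x + x₀) y
    rw [hR0, map_zero, add_sub_cancel_right] at h1
    rw [map_zero, h1, hQ, map_sum]
    refine Finset.sum_congr rfl fun β _ => ?_
    rw [eval_monomial, Finsupp.prod_fintype _ _ fun _ => pow_zero _]
  have h1 : coeff β.1 Q = eval x (p β) := by
    rw [hQ, coeff_sum, Finset.sum_eq_single_of_mem β (Finset.mem_univ _)]
    · rw [coeff_monomial, if_pos rfl]
    · intro γ _ hγ
      rw [coeff_monomial, if_neg fun h0 => hγ (Subtype.ext h0)]
  rw [← h1, hQ0, coeff_zero, Pi.zero_apply, map_zero]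

/-- a function which is not constant is not constant on generic lines -/
theorem gen_line_nonconst {f : (ι → ℂ) → ℂ} {x₀ : ι → ℂ} (hf : AnalyticAt ℂ f x₀)
    (h : ∀ c, ¬ ∀ᶠ x in 𝓝 x₀, f x = c) :
    ∃ a : MvPolynomial ι ℂ, a ≠ 0 ∧ ∀ v, eval v a ≠ 0 → ∀ c, ¬ ∀ᶠ s in 𝓝 (0 : ℂ), f (x₀ + s • v) = c := by
  obtain ⟨q, hq⟩ := hf
  have hex : ∃ m, m ≠ 0 ∧ hpoly q m ≠ 0 := by
    by_contra hcon
    push Not at hcon
    apply h (q 0 fun _ => 0)
    have h1 := hq.eventually_hasSum
    have h2 : Tendsto (fun x : ι → ℂ => x - x₀) (𝓝 x₀) (𝓝 0) := by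
      have h2 : Continuous fun x : ι → ℂ => x - x₀ := continuous_id.sub continuous_const
      have h3 := h2.tendsto x₀
      rwa [sub_self] at h3
    filter_upwards [h2.eventually h1] with x hx
    rw [add_sub_cancel] at hx
    refine hx.unique ?_
    have h3 : (q 0 fun _ => x - x₀) = q 0 fun _ => 0 := by
      congr 1
      funext i
      exact i.elim0
    rw [← h3]
    refine hasSum_single 0 fun n hn => ?_
    rw [← hpoly_eval, hcon n hn, map_zero]
  obtain ⟨m, hm, hm0⟩ := hex
  refine ⟨hpoly q m, hm0, fun v hv c hc => hv ?_⟩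
  obtain ⟨q', hq', hc'⟩ := line_coeff hq v
  rw [← hc']
  have h1 : HasFPowerSeriesAt (fun s : ℂ => f (x₀ + s • v) - c) (q' - constFormalMultilinearSeries ℂ ℂ c) 0 :=
    hq'.sub hasFPowerSeriesAt_const
  have h2 : q' - constFormalMultilinearSeries ℂ ℂ c = 0 := by
    refine h1.eq_zero_of_eventually ?_
    filter_upwards [hc] with s hs
    rw [hs, sub_self]
    rfl
  rw [sub_eq_zero.1 h2]
  rcases m with _ | m
  · exact absurd rfl hm
  · rfl

/-- independence near one point of a connected open set gives independence near all points -/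
theorem locIndM_all {U : Set (ι → ℂ)} (hU : IsPreconnected U) {f : σ → (ι → ℂ) → ℂ}
    (hf : ∀ i, AnalyticOnNhd ℂ (f i) U) {t₀ : ι → ℂ} (ht₀ : t₀ ∈ U) (hUo : IsOpen U) (h : LocIndM f t₀) :
    ∀ t ∈ U, LocIndM f t := by
  intro t ht P hP
  apply h
  have h1 : ∀ x ∈ U, eval (Sum.elim x fun i => f i x) P = 0 :=
    (eval_an hf P).eqOn_zero_of_preconnected_of_eventuallyEq_zero hU ht hP
  filter_upwards [hUo.mem_nhds ht₀] with x hx
  exact h1 x hx

end Pool.Agent.W5h46.GV
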