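import Pool.Agent.W5h46.HL.Eig

/-!
# Additive and multiplicative solutions of difference equations of first order
-/

set_option autoImplicit false
set_option linter.unusedSectionVars false

open MvPolynomial Finset

namespace Pool.Agent.W5h46.GV

open Pool.Agent.W5h46.HL

variable {K : Type} [Field K] {κ : Type} [Fintype κ]

/-- there are no linear eigenvectors -/
def NoLin (σ : K →+* K) (M : κ → Kˣ) (b : κ → K) (G : Subgroup Kˣ) : Prop :=
  ∀ ν ∈ G, ∀ (a : κ → K) (r : K), (∀ y, (M y : K) * σ (a y) = ν * a y) →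
    σ r - ∑ y, σ (a y) * ((M y : K) * b y) = ν * r → ∀ y, a y = 0

/-- a linear eigenvector from an eigenvector -/
theorem linear_of_eigen [CharZero K] (σ : K →+* K) (M : κ → Kˣ) (b : κ → K)
    (G : Subgroup Kˣ) (hG : ∀ y, M y ∈ G)
    (hex : ∃ m, ∃ Q : MvPolynomial κ K, ∃ ν ∈ G, TT σ (fun y => (M y : K)) b Q = C ((ν : Kˣ) : K) * Q ∧ LeD m Q ∧
      ∃ e, 1 ≤ dg e ∧ coeff e Q ≠ 0) :
    ∃ ν ∈ G, ∃ (a : κ → K) (r : K), (∃ y, a y ≠ 0) ∧ (∀ y, (M y : K) * σ (a y) = ν * a y) ∧
      σ r - ∑ y, σ (a y) * ((M y : K) * b y) = ν * r := by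
  classical
  set T := TT σ (fun y => (M y : K)) b with hTdef
  obtain ⟨Q, ν, hν, hTQ, hQle, e, he1, he⟩ := Nat.find_spec hex
  set m := Nat.find hex with hm
  have hm1 : m = 1 := by
    have h1 : 1 ≤ m := he1.trans (hQle e he)
    by_contra hne
    have h2 : 2 ≤ m := by omega
    have h3 : ∃ f, coeff f Q ≠ 0 ∧ dg f = m := by
      by_contra hcon
      push Not at hcon
      refine Nat.find_min hex (m := m - 1) (by omega) ⟨Q, ν, hν, hTQ, fun f hf => ?_, e, he1, he⟩
      have h4 := hQle f hf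
      have h5 := hcon f hf
      omega
    obtain ⟨f, hf, hfm⟩ := h3
    obtain ⟨y, g, hg⟩ := exists_sub_single (e := f) (by omega)
    refine Nat.find_min hex (m := m - 1) (by omega) ⟨pderiv y Q, (M y)⁻¹ * ν, G.mul_mem (G.inv_mem (hG y)) hν,
      ?_, ?_, g, ?_, ?_⟩
    · have h4 := pderiv_TT σ (fun y => (M y : K)) b y Q
      rw [← hTdef, hTQ, pderiv_C_mul] at h4
      calc T (pderiv y Q) = C (((M y)⁻¹ : Kˣ) : K) * (C ((M y : Kˣ) : K) * T (pderiv y Q)) := by
            rw [← mul_assoc, ← C_mul, Units.inv_mul, C_1, one_mul]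
        _ = C (((M y)⁻¹ : Kˣ) : K) * (C (ν : K) * pderiv y Q) := by rw [h4]
        _ = _ := by
            rw [← mul_assoc, ← C_mul]
            push_cast
            rfl
    · intro u hu
      rw [coeff_pderiv] at hu
      have h4 := hQle _ (left_ne_zero_of_mul hu)
      rw [dg_add, dg_single] at h4
      omega
    · rw [hg, dg_add, dg_single] at hfm
      omega
    · rw [coeff_pderiv]
      refine mul_ne_zero ?_ (Nat.cast_add_one_ne_zero _)
      rw [← hg]
      exact hf
  rw [hm1] at hQle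
  refine ⟨ν, hν, fun y => coeff (Finsupp.single y 1) Q, coeff 0 Q, ?_, ?_, ?_⟩
  · obtain ⟨y, hy⟩ := dg_eq_one (e := e) (le_antisymm (hQle e he) he1)
    refine ⟨y, ?_⟩
    show coeff (Finsupp.single y 1) Q ≠ 0
    rw [← hy]
    exact he
  · intro y
    have h1 := coeff_TT σ (fun y => (M y : K)) b hQle (dg_single y 1)
    rw [← hTdef, hTQ, coeff_C_mul] at h1
    rw [h1, mul_comm]
    congr 1
    rw [Finset.prod_eq_single y]
    · simp
    · intro z _ hz
      rw [Finsupp.single_eq_of_ne hz, pow_zero]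
    · simp
  · have h1 : coeff 0 (T Q) = ν * coeff 0 Q := by rw [hTQ, coeff_C_mul]
    rw [← h1]
    conv_rhs => rw [hQle.one_eq]
    rw [map_add, map_sum, hTdef, TT_C]
    simp only [map_mul, TT_C, TT_X]
    rw [coeff_add, coeff_sum]
    have h2 : ∀ y, coeff 0 (C (σ (coeff (Finsupp.single y 1) Q)) * (C ((M y : Kˣ) : K) * (X y - C (b y)))) =
        -(σ (coeff (Finsupp.single y 1) Q) * ((M y : K) * b y)) := by
      intro y
      rw [coeff_C_mul, coeff_C_mul, coeff_sub, coeff_zero_X, coeff_zero_C]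
      ring
    simp only [h2]
    rw [coeff_zero_C, Finset.sum_neg_distrib]
    ring

theorem le_dg (P : MvPolynomial κ K) : LeD (P.support.sup dg) P :=
  fun _ he => Finset.le_sup (f := dg) (mem_support_iff.2 he)

/-- eigenvectors are constant -/
theorem eigen_const [CharZero K] (σ : K →+* K) (M : κ → Kˣ) (b : κ → K) (G : Subgroup Kˣ) (hG : ∀ y, M y ∈ G)
    (hN : NoLin σ M b G) {A : MvPolynomial κ K} (hA : A ≠ 0) {c : K}
    (h : TT σ (fun y => (M y : K)) b A = C c * A) : A = C (coeff 0 A) := by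
  classical
  -- a monomial of highest degree
  obtain ⟨e0, he0, hmax⟩ := Finset.exists_max_image A.support dg (Finset.nonempty_iff_ne_empty.2 fun h0 =>
    hA (support_eq_empty.1 h0))
  have hle : LeD (dg e0) A := fun e he => hmax e (mem_support_iff.2 he)
  have ha0 : coeff e0 A ≠ 0 := mem_support_iff.1 he0
  set a := coeff e0 A with ha
  by_cases hd : dg e0 = 0
  · rw [hd] at hle
    ext e
    rw [coeff_C]
    split_ifs with h1
    · rw [← h1]
    · by_contra h2
      have h3 := hle e h2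
      exact h1 (dg_eq_zero (e := e) (by omega)).symm
  exfalso
  set T := TT σ (fun y => (M y : K)) b with hTdef
  set A' := C a⁻¹ * A with hA'
  have h1 : T A' = C (σ a⁻¹ * c * a) * A' := by
    have h2 : C (σ a⁻¹ * c * a) * A' = (C (σ a⁻¹) * (C c * A) : MvPolynomial κ K) := by
      rw [hA', C_mul, C_mul]
      have h3 : (C a * C a⁻¹ : MvPolynomial κ K) = 1 := by rw [← C_mul, mul_inv_cancel₀ ha0, C_1]
      linear_combination (C (σ a⁻¹) * C c * A) * h3
    rw [h2, hA', map_mul, hTdef, TT_C, ← hTdef, h]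
  have hle' : LeD (dg e0) A' := hle.C_mul _
  have hc1 : coeff e0 A' = 1 := by rw [hA', coeff_C_mul, ← ha, inv_mul_cancel₀ ha0]
  have h2 := coeff_TT σ (fun y => (M y : K)) b hle' (e := e0) rfl
  rw [← hTdef, h1, coeff_C_mul, hc1, map_one, mul_one, one_mul] at h2
  set ν : Kˣ := ∏ y, M y ^ e0 y with hν
  have hνK : (ν : K) = ∏ y, (M y : K) ^ e0 y := by
    rw [hν]
    push_cast
    rfl
  rw [h2, ← hνK] at h1
  obtain ⟨ν', hν', a', r, ⟨y, hy⟩, h3, h4⟩ := linear_of_eigen σ M b G hG ⟨dg e0, A', ν,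
    G.prod_mem fun y _ => G.pow_mem (hG y) _, h1, hle', e0, by omega, by rw [hc1]; exact one_ne_zero⟩
  exact hy (hN ν' hν' a' r h3 h4 y)

/-- `T A = D A` implies that `D` is constant -/
theorem const_of_dvd [CharZero K] (σ : K →+* K) (M : κ → Kˣ) (b : κ → K) {A D : MvPolynomial κ K} (hA : A ≠ 0)
    (h : TT σ (fun y => (M y : K)) b A = D * A) : ∃ c, D = C c := by
  classical
  set n := A.support.sup dg with hn
  have hle : LeD n A := le_dg A
  have hle2 : LeD n (TT σ (fun y => (M y : K)) b A) := (cong_TD σ (fun y => (M y : K)) b hle).l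
  have hdg : ∀ P : MvPolynomial κ K, P.totalDegree = P.support.sup dg := by
    intro P
    rw [totalDegree]
    refine Finset.sup_congr rfl fun e _ => ?_
    rw [dg, Finsupp.sum_fintype _ _ (fun _ => rfl)]
  have h1 : (TT σ (fun y => (M y : K)) b A).totalDegree ≤ A.totalDegree := by
    rw [hdg, hdg]
    exact Finset.sup_le fun e he => hle2 e (mem_support_iff.1 he)
  by_cases hD : D = 0
  · exact ⟨0, by rw [hD, C_0]⟩
  rw [h, totalDegree_mul_of_isDomain hD hA] at h1
  have h2 : D.totalDegree = 0 := by omega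
  exact ⟨_, totalDegree_eq_zero_iff_eq_C.1 h2⟩

variable {J : Type} [Fintype J]

/-- the substitution on the polynomials in the multiplicative solutions -/
noncomputable def SS (T : MvPolynomial κ K →+* MvPolynomial κ K) (q : J → K) :
    MvPolynomial J (MvPolynomial κ K) →+* MvPolynomial J (MvPolynomial κ K) :=
  eval₂Hom (C.comp T) (fun j => C (C (q j)) * X j)

theorem coeff_SS (T : MvPolynomial κ K →+* MvPolynomial κ K) (q : J → K) (P : MvPolynomial J (MvPolynomial κ K))
    (e : J →₀ ℕ) : coeff e (SS T q P) = T (coeff e P) * C (∏ y, q y ^ e y) := by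
  classical
  have hP' := P.support_sum_monomial_coeff
  have hmono : ∀ m : J →₀ ℕ, ∀ c : MvPolynomial κ K, SS T q (monomial m c) = monomial m (T c * C (∏ y, q y ^ m y)) := by
    intro m c
    rw [SS, eval₂Hom_monomial, Finsupp.prod_fintype _ _ (fun _ => pow_zero _), monomial_eq, C_mul,
      Finsupp.prod_fintype _ _ (fun _ => pow_zero _), map_prod, map_prod]
    simp only [RingHom.coe_comp, Function.comp_apply, mul_pow, Finset.prod_mul_distrib, map_pow]
    ring
  conv_lhs => rw [← hP', map_sum]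
  rw [coeff_sum]
  simp only [hmono, coeff_monomial]
  rw [Finset.sum_ite_eq' P.support e]
  split_ifs with h
  · rfl
  · rw [notMem_support_iff.1 h, map_zero, zero_mul]

/-- **Additive and multiplicative solutions together.** -/
theorem mixed [CharZero K] {R : Type} [CommRing R] (σ : K →+* K) (M : κ → Kˣ) (b : κ → K) (G : Subgroup Kˣ)
    (hG : ∀ y, M y ∈ G) (hN : NoLin σ M b G) (q : J → K)
    (hM : ∀ (α β : J →₀ ℕ) (ρ : K), ρ ≠ 0 → (∏ y, q y ^ α y) * σ ρ = (∏ y, q y ^ β y) * ρ → α = β)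
    (tg : R →+* R) (φ : MvPolynomial κ K →+* R) (hφ : ∀ a : K, φ (C a) = 0 → a = 0)
    (hφT : ∀ Q, φ (TT σ (fun y => (M y : K)) b Q) = tg (φ Q))
    (g : J → R) (hg : ∀ j, IsUnit (g j)) (hgT : ∀ j, tg (g j) = φ (C (q j)) * g j)
    (P : MvPolynomial J (MvPolynomial κ K)) (hP : eval₂Hom φ g P = 0) : P = 0 := by
  classical
  set T := TT σ (fun y => (M y : K)) b with hTdef
  -- the additive part
  have hφ0 : ∀ Q, φ Q = 0 → Q = 0 := by
    intro Q hQ
    by_contra hQ0
    obtain ⟨ν, hν, a, r, ⟨y, hy⟩, h1, h2⟩ := exists_linear σ M b (RingHom.ker φ) (fun a ha => hφ a ha)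
      (fun R hR => by
        rw [RingHom.mem_ker] at hR ⊢
        rw [hφT, hR, map_zero]) ⟨Q, hQ, hQ0⟩ G hG
    exact hy (hN ν hν a r h1 h2 y)
  have hTinj : Function.Injective T := by
    rw [injective_iff_map_eq_zero]
    intro Q hQ
    by_contra hQ0
    obtain ⟨e0, he0, hmax⟩ := Finset.exists_max_image Q.support dg (Finset.nonempty_iff_ne_empty.2 fun h0 =>
      hQ0 (support_eq_empty.1 h0))
    have hle : LeD (dg e0) Q := fun e he => hmax e (mem_support_iff.2 he)
    have h2 := coeff_TT σ (fun y => (M y : K)) b hle (e := e0) rfl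
    rw [← hTdef, hQ, coeff_zero] at h2
    have h3 : (∏ y, (M y : K) ^ e0 y) ≠ 0 := Finset.prod_ne_zero_iff.2 fun y _ => pow_ne_zero _ (M y).ne_zero
    have h4 := (mul_eq_zero.1 h2.symm).resolve_right h3
    exact (mem_support_iff.1 he0) ((map_eq_zero σ).1 h4)
  set Φ := eval₂Hom φ g with hΦ
  have hΦS : ∀ Q, Φ (SS T q Q) = tg (Φ Q) := by
    intro Q
    have h : Φ.comp (SS T q) = tg.comp Φ := by
      refine MvPolynomial.ringHom_ext (fun a => ?_) fun y => ?_
      · simp only [RingHom.comp_apply, SS, Φ, coe_eval₂Hom, eval₂_C]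
        exact hφT a
      · simp only [RingHom.comp_apply, SS, Φ, coe_eval₂Hom, eval₂_X, eval₂_mul, eval₂_C]
        exact (hgT y).symm
    exact congrArg (fun f : MvPolynomial J (MvPolynomial κ K) →+* R => f Q) h
  by_contra hP0
  have hex : ∃ n, ∃ Q : MvPolynomial J (MvPolynomial κ K), Q ≠ 0 ∧ Φ Q = 0 ∧ Q.support.card = n :=
    ⟨_, P, hP0, hP, rfl⟩
  obtain ⟨Q, hQ0, hQΦ, hcard⟩ := Nat.find_spec hex
  have hmin : ∀ Q' : MvPolynomial J (MvPolynomial κ K), Φ Q' = 0 → Q'.support.card < Q.support.card → Q' = 0 := by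
    intro Q' h1 h2
    by_contra h3
    rw [hcard] at h2
    exact Nat.find_min hex h2 ⟨Q', h3, h1, rfl⟩
  obtain ⟨α₀, hα₀⟩ := Finset.nonempty_iff_ne_empty.2 fun h0 => hQ0 (support_eq_empty.1 h0)
  have hA0 : coeff α₀ Q ≠ 0 := mem_support_iff.1 hα₀
  -- the elimination
  set Q' := C (coeff α₀ Q) * SS T q Q - C (T (coeff α₀ Q) * C (∏ y, q y ^ α₀ y)) * Q with hQ'
  have hQ'c : ∀ e, coeff e Q' = coeff α₀ Q * (T (coeff e Q) * C (∏ y, q y ^ e y)) -
      T (coeff α₀ Q) * C (∏ y, q y ^ α₀ y) * coeff e Q := by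
    intro e
    rw [hQ', coeff_sub, coeff_C_mul, coeff_C_mul, coeff_SS]
  have hQ'Φ : Φ Q' = 0 := by
    rw [hQ', map_sub, map_mul, map_mul, hΦS, hQΦ, map_zero, mul_zero, mul_zero, sub_zero]
  have hQ'0 : Q' = 0 := by
    refine hmin Q' hQ'Φ (Finset.card_lt_card ?_)
    rw [Finset.ssubset_iff_subset_ne]
    constructor
    · intro e he
      rw [mem_support_iff] at he ⊢
      intro h0
      apply he
      rw [hQ'c, h0, map_zero, zero_mul, mul_zero, mul_zero, sub_zero]
    · intro h0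
      have h1 : α₀ ∈ Q'.support := by rw [h0]; exact hα₀
      rw [mem_support_iff, hQ'c] at h1
      apply h1
      ring
  have hrel : ∀ e, coeff α₀ Q * (T (coeff e Q) * C (∏ y, q y ^ e y)) =
      T (coeff α₀ Q) * C (∏ y, q y ^ α₀ y) * coeff e Q := by
    intro e
    rw [← sub_eq_zero, ← hQ'c, hQ'0, coeff_zero]
  -- there is only one monomial
  have hone : ∀ e ∈ Q.support, e = α₀ := by
    intro e he
    have hA1 : coeff e Q ≠ 0 := mem_support_iff.1 he
    obtain ⟨A, B, c, hAB, hcA, hcB⟩ := UniqueFactorizationMonoid.exists_reduced_factors (coeff α₀ Q) hA0 (coeff e Q)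
    have hc0 : c ≠ 0 := by
      rintro rfl
      rw [zero_mul] at hcA
      exact hA0 hcA.symm
    have hA0' : A ≠ 0 := by
      rintro rfl
      rw [mul_zero] at hcA
      exact hA0 hcA.symm
    have hB0' : B ≠ 0 := by
      rintro rfl
      rw [mul_zero] at hcB
      exact hA1 hcB.symm
    have hTc : T c ≠ 0 := fun h0 => hc0 (hTinj (by rw [h0, map_zero]))
    have h1 : A * T B * C (∏ y, q y ^ e y) = T A * B * C (∏ y, q y ^ α₀ y) := by
      have h2 := hrel e
      rw [← hcA, ← hcB, map_mul, map_mul] at h2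
      apply mul_left_cancel₀ (mul_ne_zero hc0 hTc)
      linear_combination h2
    have hqne : ∀ f : J →₀ ℕ, (∏ y, q y ^ f y) ≠ 0 := by
      intro f h0
      have h3 : ∀ j, q j ≠ 0 := by
        intro j hj
        have h4 := hM (Finsupp.single j 1) (Finsupp.single j 2) 1 one_ne_zero (by
          have h5 : ∀ n : ℕ, n ≠ 0 → (∏ y, q y ^ (Finsupp.single j n) y) = 0 := by
            intro n hn
            refine Finset.prod_eq_zero (Finset.mem_univ j) ?_
            rw [Finsupp.single_eq_same, hj, zero_pow hn]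
          rw [h5 1 one_ne_zero, h5 2 two_ne_zero, zero_mul, zero_mul])
        have h6 := congrArg (fun f : J →₀ ℕ => f j) h4
        simp at h6
      exact (Finset.prod_ne_zero_iff.2 fun y _ => pow_ne_zero _ (h3 y)) h0
    have hunit : ∀ f : J →₀ ℕ, IsUnit (C (∏ y, q y ^ f y) : MvPolynomial κ K) := fun f =>
      (isUnit_iff_ne_zero.2 (hqne f)).map C
    have hdA : A ∣ T A := by
      have h2 : A ∣ T A * B * C (∏ y, q y ^ α₀ y) := by
        rw [← h1, mul_assoc]
        exact dvd_mul_right _ _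
      rw [(hunit α₀).dvd_mul_right] at h2
      exact hAB.dvd_of_dvd_mul_right h2
    have hdB : B ∣ T B := by
      have h2 : B ∣ A * T B * C (∏ y, q y ^ e y) := by
        rw [h1]
        exact ⟨T A * C (∏ y, q y ^ α₀ y), by ring⟩
      rw [(hunit e).dvd_mul_right] at h2
      exact hAB.symm.dvd_of_dvd_mul_left h2
    have hcst : ∀ E : MvPolynomial κ K, E ≠ 0 → E ∣ T E → E = C (coeff 0 E) := by
      rintro E hE ⟨D, hD⟩
      obtain ⟨c', rfl⟩ := const_of_dvd σ M b (D := D) hE (by rw [← hTdef, hD, mul_comm])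
      exact eigen_const σ M b G hG hN hE (c := c') (by rw [← hTdef, hD, mul_comm])
    have hAc := hcst A hA0' hdA
    have hBc := hcst B hB0' hdB
    set a := coeff 0 A
    set b' := coeff 0 B
    have ha : a ≠ 0 := fun h0 => hA0' (by rw [hAc, h0, C_0])
    have hb : b' ≠ 0 := fun h0 => hB0' (by rw [hBc, h0, C_0])
    rw [hAc, hBc, hTdef, TT_C, TT_C, ← C_mul, ← C_mul, ← C_mul, ← C_mul] at h1
    have h2 := C_injective _ _ h1
    have hσb : σ b' ≠ 0 := (map_ne_zero σ).2 hb
    refine (hM α₀ e (a / b') (div_ne_zero ha hb) ?_).symm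
    rw [map_div₀]
    field_simp
    linear_combination -h2
  have hQm : Q = monomial α₀ (coeff α₀ Q) := by
    ext e : 1
    rw [coeff_monomial]
    split_ifs with h
    · rw [← h]
    · by_contra h2
      exact h (hone e (mem_support_iff.2 h2)).symm
  rw [hQm, hΦ, coe_eval₂Hom, eval₂_monomial] at hQΦ
  have hu : IsUnit (α₀.prod fun n e => g n ^ e) := by
    rw [Finsupp.prod_fintype _ _ (fun _ => pow_zero _)]
    refine (Finset.prod_induction _ IsUnit (fun a b ha hb => ha.mul hb) isUnit_one fun j _ => (hg j).pow _)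
  exact hA0 (hφ0 _ ((hu.mul_left_eq_zero).1 hQΦ))

end Pool.Agent.W5h46.GV
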