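import Pool.Agent.W5h46.GV.Zero
import Pool.Agent.W5h46.GV.Mix

/-!
# Independence along a line
-/

set_option autoImplicit false
set_option linter.unusedSectionVars false

open Filter Topology MvPolynomial

namespace Pool.Agent.W5h46.GV

open Pool.Agent.W5h46.HL

theorem ig_sub_inv (a : ℂ) (k : ℕ) :
    ig ((xx - cst a)⁻¹ ^ k) = ((fun x : ℝ => (((x : ℂ) - a) ^ k)⁻¹ : ℝ → ℂ) : GG) := by
  have h1 : ig ((xx - cst a) ^ k) * ig ((xx - cst a)⁻¹ ^ k) = 1 := by
    rw [← map_mul, ← mul_pow, mul_inv_cancel₀ (xz_ne a), one_pow, map_one]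
  have h2 : ig ((xx - cst a) ^ k) * ((fun x : ℝ => (((x : ℂ) - a) ^ k)⁻¹ : ℝ → ℂ) : GG) = 1 := by
    rw [hxz, ← map_pow, ig_alg, gl_apply, ← Germ.coe_mul, ← Germ.coe_one]
    refine Germ.coe_eq.2 ?_
    filter_upwards [eventually_gt_atTop a.re] with x hx
    have : (x : ℂ) - a ≠ 0 := by
      intro h0
      have h1 := congrArg Complex.re h0
      rw [Complex.sub_re, Complex.ofReal_re, Complex.zero_re] at h1
      linarith
    simp [this]
  have h3 : ig ((xx - cst a)⁻¹ ^ k) * ig ((xx - cst a) ^ k) = 1 := by rw [mul_comm, h1]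
  calc ig ((xx - cst a)⁻¹ ^ k) = ig ((xx - cst a)⁻¹ ^ k) *
        (ig ((xx - cst a) ^ k) * ((fun x : ℝ => (((x : ℂ) - a) ^ k)⁻¹ : ℝ → ℂ) : GG)) := by
        rw [h2, mul_one]
    _ = _ := by rw [← mul_assoc, h3, one_mul]

theorem ig_sub (a : ℂ) : ig (xx - cst a) = ((fun x : ℝ => (x : ℂ) - a : ℝ → ℂ) : GG) := by
  rw [hxz, ig_alg, gl_apply]
  congr 1
  funext x
  simp

section

variable {I : Type} [Fintype I] (n : I → ℕ) (p : I → ℂ) (w : ℕ) (c : Fin w → ℂ)

/-- the poles -/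
noncomputable def zz (u : Σ i, Fin (n i)) : ℂ := -(p u.1 + ((u.2 : ℕ) : ℂ)) / n u.1

/-- the principal parts -/
noncomputable def bb (y : I × Fin w) : KK :=
  ∑ j : Fin (n y.1), cst (c y.2 * ((n y.1 : ℂ) ^ ((y.2 : ℕ) + 1))⁻¹) * (xx - cst (zz n p ⟨y.1, j⟩))⁻¹ ^ ((y.2 : ℕ) + 1)

/-- the factors -/
noncomputable def qq (i : I) : KK :=
  cst ((n i : ℂ) ^ (n i)) * ∏ j : Fin (n i), (xx - cst (zz n p ⟨i, j⟩))

theorem noLin (hn : ∀ i, 0 < n i) (hz : ∀ u v : Σ i, Fin (n i), ∀ m : ℤ, u ≠ v → zz n p u - zz n p v ≠ m)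
    (hc : ∀ k, c k ≠ 0) : NoLin sg (fun _ : I × Fin w => (1 : KKˣ)) (bb n p w c) ⊥ := by
  classical
  intro ν hν a r h1 h2 y
  rw [Subgroup.mem_bot] at hν
  subst hν
  simp only [Units.val_one, one_mul] at h1 h2
  have hex : ∀ y, ∃ α, a y = cst α := by
    intro y
    by_cases h : a y = 0
    · exact ⟨0, by rw [h, map_zero]⟩
    · exact (frac_ratio h (c := 1) (by rw [map_one, one_mul]; exact h1 y)).2
  choose α hα using hex
  have h3 : sg r - cst 1 * r = ∑ y : (Σ i, Fin (n i)) × Fin w,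
      cst (α (y.1.1, y.2) * (c y.2 * ((n y.1.1 : ℂ) ^ ((y.2 : ℕ) + 1))⁻¹)) *
        (xx - cst (zz n p y.1))⁻¹ ^ ((y.2 : ℕ) + 1) := by
    rw [map_one, one_mul]
    have h4 : sg r - r = ∑ y, sg (a y) * bb n p w c y := by linear_combination h2
    rw [h4, Fintype.sum_prod_type, Fintype.sum_prod_type, Fintype.sum_sigma]
    refine Finset.sum_congr rfl fun i _ => ?_
    rw [Finset.sum_comm]
    refine Finset.sum_congr rfl fun k _ => ?_
    rw [bb, Finset.mul_sum]
    refine Finset.sum_congr rfl fun j _ => ?_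
    rw [hα, sg_cst, map_mul cst (α (i, k)), mul_assoc]
  have h5 := frac_no_pole hz one_ne_zero _ h3
  have h6 := h5 (⟨y.1, ⟨0, hn y.1⟩⟩, y.2)
  have h7 : (n y.1 : ℂ) ≠ 0 := by exact_mod_cast (hn y.1).ne'
  have h8 : α y = 0 :=
    (mul_eq_zero.1 h6).resolve_right (mul_ne_zero (hc _) (inv_ne_zero (pow_ne_zero _ h7)))
  rw [hα, h8, map_zero]

theorem qq_mult (hn : ∀ i, 0 < n i) (hz : ∀ u v : Σ i, Fin (n i), ∀ m : ℤ, u ≠ v → zz n p u - zz n p v ≠ m)
    (α β : I →₀ ℕ) (ρ : KK) (hρ : ρ ≠ 0) (h : (∏ j, qq n p j ^ α j) * sg ρ = (∏ j, qq n p j ^ β j) * ρ) : α = β := by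
  refine frac_mult hz (fun u => u.1) (fun i => ⟨⟨i, ⟨0, hn i⟩⟩, rfl⟩) (fun i => (n i : ℂ) ^ (n i))
    (fun i => pow_ne_zero _ (by exact_mod_cast (hn i).ne')) (qq n p) (fun α => ?_) α β ρ hρ h
  rw [Fintype.prod_sigma, map_prod, ← Finset.prod_mul_distrib]
  refine Finset.prod_congr rfl fun i _ => ?_
  rw [qq, mul_pow, ← map_pow, ← Finset.prod_pow]

/-- **Independence along a line.** -/
theorem line (hn : ∀ i, 0 < n i) (hz : ∀ u v : Σ i, Fin (n i), ∀ m : ℤ, u ≠ v → zz n p u - zz n p v ≠ m)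
    (hc : ∀ k, c k ≠ 0) (Gm : ℂ → ℂ) (F : Fin w → ℂ → ℂ)
    (hG0 : ∀ z : ℂ, 0 < z.re → Gm z ≠ 0) (hG1 : ∀ z : ℂ, 0 < z.re → Gm (z + 1) = z * Gm z)
    (hF : ∀ k, ∀ z : ℂ, 0 < z.re → F k (z + 1) = F k z - c k * (z ^ ((k : ℕ) + 1))⁻¹)
    (P : MvPolynomial (Option (I ⊕ (I × Fin w))) ℂ)
    (hP : ∀ᶠ x : ℝ in atTop, eval (fun o : Option (I ⊕ (I × Fin w)) => o.elim (x : ℂ)
      (Sum.elim (fun i => Gm (n i * x + p i)) fun y => F y.2 (n y.1 * x + p y.1))) P = 0) : P = 0 := by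
  classical
  have hn0 : ∀ i, (n i : ℂ) ≠ 0 := fun i => by exact_mod_cast (hn i).ne'
  -- iterated equations
  have hGn : ∀ (m : ℕ) (z : ℂ), 0 < z.re → Gm (z + m) = (∏ j : Fin m, (z + ((j : ℕ) : ℂ))) * Gm z := by
    intro m
    induction m with
    | zero => intro z _; simp
    | succ m ih =>
      intro z hz
      rw [Fin.prod_univ_castSucc]
      push_cast
      rw [← add_assoc, hG1 _ (by
        rw [Complex.add_re, Complex.natCast_re]
        have : (0 : ℝ) ≤ m := Nat.cast_nonneg m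
        linarith), ih z hz]
      simp only [Fin.val_castSucc]
      ring
  have hFn : ∀ (k : Fin w) (m : ℕ) (z : ℂ), 0 < z.re →
      F k (z + m) = F k z - ∑ j : Fin m, c k * ((z + ((j : ℕ) : ℂ)) ^ ((k : ℕ) + 1))⁻¹ := by
    intro k m
    induction m with
    | zero => intro z _; simp
    | succ m ih =>
      intro z hz
      rw [Fin.sum_univ_castSucc]
      push_cast
      rw [← add_assoc, hF k _ (by
        rw [Complex.add_re, Complex.natCast_re]
        have : (0 : ℝ) ≤ m := Nat.cast_nonneg m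
        linarith), ih z hz]
      simp only [Fin.val_castSucc]
      ring
  have hre : ∀ i, ∀ᶠ x : ℝ in atTop, 0 < ((n i : ℂ) * x + p i).re := by
    intro i
    have h1 : Tendsto (fun x : ℝ => (n i : ℝ) * x + (p i).re) atTop atTop :=
      tendsto_atTop_add_const_right _ _ (tendsto_id.const_mul_atTop (by exact_mod_cast hn i))
    filter_upwards [h1.eventually_gt_atTop 0] with x hx
    rw [Complex.add_re, Complex.mul_re, Complex.natCast_re, Complex.natCast_im, Complex.ofReal_re]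
    simpa using hx
  have hlin : ∀ (u : Σ i, Fin (n i)) (x : ℝ), (n u.1 : ℂ) * x + p u.1 + ((u.2 : ℕ) : ℂ) =
      n u.1 * ((x : ℂ) - zz n p u) := by
    intro u x
    rw [zz]
    field_simp [hn0 u.1]
    ring
  let Fg : I × Fin w → GG := fun y => ((fun x : ℝ => F y.2 (n y.1 * x + p y.1) : ℝ → ℂ) : GG)
  let g : I → GG := fun i => ((fun x : ℝ => Gm (n i * x + p i) : ℝ → ℂ) : GG)
  let φ : MvPolynomial (I × Fin w) KK →+* GG := eval₂Hom ig Fg
  have hbb : ∀ y : I × Fin w, ig (bb n p w c y) = ((fun x : ℝ => ∑ j : Fin (n y.1),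
      c y.2 * (((n y.1 : ℂ) * x + p y.1 + ((j : ℕ) : ℂ)) ^ ((y.2 : ℕ) + 1))⁻¹ : ℝ → ℂ) : GG) := by
    intro y
    have h1 : ∀ j : Fin (n y.1), ig (cst (c y.2 * ((n y.1 : ℂ) ^ ((y.2 : ℕ) + 1))⁻¹) *
        (xx - cst (zz n p ⟨y.1, j⟩))⁻¹ ^ ((y.2 : ℕ) + 1)) = ((fun x : ℝ =>
          c y.2 * (((n y.1 : ℂ) * x + p y.1 + ((j : ℕ) : ℂ)) ^ ((y.2 : ℕ) + 1))⁻¹ : ℝ → ℂ) : GG) := by
      intro j
      rw [map_mul, ig_cst, ig_sub_inv, ← Germ.coe_mul]
      congr 1
      funext x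
      rw [Pi.mul_apply, hlin ⟨y.1, j⟩ x, mul_pow, mul_inv]
      ring
    rw [bb, map_sum]
    simp only [h1]
    have h2 : (fun x : ℝ => ∑ j : Fin (n y.1),
      c y.2 * (((n y.1 : ℂ) * x + p y.1 + ((j : ℕ) : ℂ)) ^ ((y.2 : ℕ) + 1))⁻¹ : ℝ → ℂ) = ∑ j : Fin (n y.1), fun x : ℝ =>
      c y.2 * (((n y.1 : ℂ) * x + p y.1 + ((j : ℕ) : ℂ)) ^ ((y.2 : ℕ) + 1))⁻¹ := by
      funext x
      rw [Finset.sum_apply]
    rw [h2]
    exact (map_sum (Germ.coeRingHom (atTop : Filter ℝ)) _ _).symm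
  have hqq : ∀ i : I, ig (qq n p i) = ((fun x : ℝ => ∏ j : Fin (n i), ((n i : ℂ) * x + p i + ((j : ℕ) : ℂ)) : ℝ → ℂ) : GG) := by
    intro i
    have h1 : ∀ j : Fin (n i), ig (cst (n i) * (xx - cst (zz n p ⟨i, j⟩))) =
        ((fun x : ℝ => (n i : ℂ) * x + p i + ((j : ℕ) : ℂ) : ℝ → ℂ) : GG) := by
      intro j
      rw [map_mul, ig_cst, ig_sub, ← Germ.coe_mul]
      congr 1
      funext x
      rw [Pi.mul_apply, hlin ⟨i, j⟩ x]
    have h2 : qq n p i = ∏ j : Fin (n i), (cst (n i) * (xx - cst (zz n p ⟨i, j⟩))) := by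
      rw [Finset.prod_mul_distrib, Finset.prod_const, Finset.card_univ, Fintype.card_fin, qq, map_pow]
    rw [h2, map_prod]
    simp only [h1]
    have h3 : (fun x : ℝ => ∏ j : Fin (n i), ((n i : ℂ) * x + p i + ((j : ℕ) : ℂ)) : ℝ → ℂ) =
        ∏ j : Fin (n i), fun x : ℝ => (n i : ℂ) * x + p i + ((j : ℕ) : ℂ) := by
      funext x
      rw [Finset.prod_apply]
    rw [h3]
    exact (map_prod (Germ.coeRingHom (atTop : Filter ℝ)) _ _).symm
  -- the equations for the germs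
  have hFg : ∀ y, tg (Fg y) = ig ((1 : KKˣ) : KK) * (Fg y - ig (bb n p w c y)) := by
    intro y
    rw [Units.val_one, map_one, one_mul, hbb]
    simp only [Fg]
    rw [tg_coe, ← Germ.coe_sub]
    refine Germ.coe_eq.2 ?_
    filter_upwards [hre y.1] with x hx
    have h1 := hFn y.2 (n y.1) _ hx
    have h2 : (n y.1 : ℂ) * ((x + 1 : ℝ) : ℂ) + p y.1 = (n y.1 : ℂ) * x + p y.1 + n y.1 := by
      push_cast
      ring
    simp only [Pi.sub_apply]
    rw [h2]
    exact h1
  have hgT : ∀ i, tg (g i) = φ (C (qq n p i)) * g i := by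
    intro i
    simp only [φ, coe_eval₂Hom, eval₂_C]
    rw [hqq]
    simp only [g]
    rw [tg_coe, ← Germ.coe_mul]
    refine Germ.coe_eq.2 ?_
    filter_upwards [hre i] with x hx
    have h1 := hGn (n i) _ hx
    have h2 : (n i : ℂ) * ((x + 1 : ℝ) : ℂ) + p i = (n i : ℂ) * x + p i + n i := by
      push_cast
      ring
    simp only [Pi.mul_apply]
    rw [h2]
    exact h1
  have hg : ∀ i, IsUnit (g i) := by
    intro i
    refine IsUnit.of_mul_eq_one (((fun x : ℝ => (Gm (n i * x + p i))⁻¹ : ℝ → ℂ)) : GG) ?_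
    simp only [g]
    rw [← Germ.coe_mul, ← Germ.coe_one]
    refine Germ.coe_eq.2 ?_
    filter_upwards [hre i] with x hx
    simp only [Pi.mul_apply, Pi.one_apply]
    exact mul_inv_cancel₀ (hG0 _ hx)
  have hφT : ∀ Q, φ (TT sg (fun _ : I × Fin w => ((1 : KKˣ) : KK)) (bb n p w c) Q) = tg (φ Q) := by
    intro Q
    have h : φ.comp (TT sg (fun _ : I × Fin w => ((1 : KKˣ) : KK)) (bb n p w c)) = tg.comp φ := by
      refine MvPolynomial.ringHom_ext (fun a => ?_) fun y => ?_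
      · simp only [RingHom.comp_apply, TT_C, φ, coe_eval₂Hom, eval₂_C]
        exact (tg_ig a).symm
      · simp only [RingHom.comp_apply, TT_X]
        rw [map_mul, map_sub]
        simp only [φ, coe_eval₂Hom, eval₂_C, eval₂_X]
        exact (hFg y).symm
    exact congrArg (fun f : MvPolynomial (I × Fin w) KK →+* GG => f Q) h
  -- the polynomial over the field of rational functions
  let tr : MvPolynomial (Option (I ⊕ (I × Fin w))) ℂ →+* MvPolynomial I (MvPolynomial (I × Fin w) KK) :=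
    ((sumAlgEquiv KK I (I × Fin w)).toRingEquiv.toRingHom.comp (map (algebraMap (Polynomial ℂ) KK))).comp
      (optionEquivRight ℂ (I ⊕ (I × Fin w))).toRingEquiv.toRingHom
  have htr : Function.Injective tr := by
    refine ((sumAlgEquiv KK I (I × Fin w)).injective.comp
      (map_injective _ (IsFractionRing.injective (Polynomial ℂ) KK))).comp (optionEquivRight ℂ _).injective
  have hQφ : eval₂Hom φ g (tr P) = ((fun x : ℝ => eval (fun o : Option (I ⊕ (I × Fin w)) => o.elim (x : ℂ)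
      (Sum.elim (fun i => Gm (n i * x + p i)) fun y => F y.2 (n y.1 * x + p y.1))) P : ℝ → ℂ) : GG) := by
    let ev : MvPolynomial (Option (I ⊕ (I × Fin w))) ℂ →+* GG := (Germ.coeRingHom (atTop : Filter ℝ)).comp
      (RingHom.pi fun x : ℝ => eval (fun o : Option (I ⊕ (I × Fin w)) => o.elim (x : ℂ)
      (Sum.elim (fun i => Gm (n i * x + p i)) fun y => F y.2 (n y.1 * x + p y.1))))
    have h : (eval₂Hom φ g).comp tr = ev := by
      refine MvPolynomial.ringHom_ext (fun a => ?_) fun o => ?_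
      · have h1 : (eval₂Hom φ g).comp tr (C a) = ig (cst a) := by
          simp only [tr, RingHom.comp_apply]
          change eval₂Hom φ g (sumAlgEquiv KK I (I × Fin w) (map _ (optionEquivRight ℂ _ (C a)))) = _
          rw [optionEquivRight_C, map_C, sumAlgEquiv_C_inl]
          simp only [φ, coe_eval₂Hom, eval₂_C]
          rfl
        have h2 : ev (C a) = ((fun _ : ℝ => a : ℝ → ℂ) : GG) := by
          simp only [ev, RingHom.comp_apply]
          change (((fun x : ℝ => eval (fun o : Option (I ⊕ (I × Fin w)) => o.elim (x : ℂ)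
            (Sum.elim (fun i => Gm (n i * x + p i)) fun y => F y.2 (n y.1 * x + p y.1))) (C a)) : ℝ → ℂ) : GG) = _
          simp only [eval_C]
        rw [h1, h2, ig_cst]
      · have h2 : ev (X o) = ((fun x : ℝ => (o.elim (x : ℂ)
            (Sum.elim (fun i => Gm (n i * x + p i)) fun y => F y.2 (n y.1 * x + p y.1))) : ℝ → ℂ) : GG) := by
          simp only [ev, RingHom.comp_apply]
          change (((fun x : ℝ => eval (fun o : Option (I ⊕ (I × Fin w)) => o.elim (x : ℂ)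
            (Sum.elim (fun i => Gm (n i * x + p i)) fun y => F y.2 (n y.1 * x + p y.1))) (X o)) : ℝ → ℂ) : GG) = _
          simp only [eval_X]
        rw [h2]
        simp only [tr, RingHom.comp_apply]
        change eval₂Hom φ g (sumAlgEquiv KK I (I × Fin w) (map _ (optionEquivRight ℂ _ (X o)))) = _
        cases o with
        | none =>
          rw [optionEquivRight_X_none, map_C, sumAlgEquiv_C_inl]
          simp only [φ, coe_eval₂Hom, eval₂_C]
          rw [ig_alg, gl_apply]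
          simp only [Polynomial.eval_X, Option.elim_none]
        | some y =>
          rw [optionEquivRight_X_some, map_X]
          cases y with
          | inl i =>
            rw [sumAlgEquiv_X_inl]
            simp only [coe_eval₂Hom, eval₂_X]
            rfl
          | inr y =>
            rw [sumAlgEquiv_X_inr]
            simp only [φ, coe_eval₂Hom, eval₂_C, eval₂_X]
            rfl
    exact congrArg (fun f : MvPolynomial (Option (I ⊕ (I × Fin w))) ℂ →+* GG => f P) h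
  have hQker : eval₂Hom φ g (tr P) = 0 := by
    rw [hQφ, ← Germ.coe_zero]
    refine Germ.coe_eq.2 ?_
    filter_upwards [hP] with x hx
    exact hx
  have h0 := mixed sg (fun _ : I × Fin w => (1 : KKˣ)) (bb n p w c) ⊥ (fun _ => Subgroup.one_mem _)
    (noLin n p w c hn hz hc) (qq n p) (qq_mult n p hn hz) tg φ (fun a ha => by
      simp only [φ, coe_eval₂Hom, eval₂_C] at ha
      exact (RingHom.injective ig) (by rw [ha, map_zero])) hφT g hg hgT (tr P) hQker
  exact htr (by rw [h0, map_zero])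

end

end Pool.Agent.W5h46.GV
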