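import Pool.Agent.W5h46.GV.GenLine
import Pool.Agent.W5h46.GV.Curve
import Pool.Agent.Y776.AxJ.Fun

/-!
# The modular functions on analytic varieties
-/

set_option autoImplicit false
set_option linter.unusedSectionVars false

open Filter Topology MvPolynomial

noncomputable section

namespace Pool.Agent.W5h46.GV

open Pool.Agent.Y890.MV (LocIndM)
open Pool.Agent Pool.Agent.Y776 Pool.Agent.Y776.AxJ

variable {n p s : ℕ} {U : Set (Fin n → ℂ)} {τ : Fin p → (Fin n → ℂ) → ℂ} {w : Fin s → (Fin n → ℂ) → ℂ}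

/-- the functions of several variables -/
structure JF (U : Set (Fin n → ℂ)) (τ : Fin p → (Fin n → ℂ) → ℂ) (w : Fin s → (Fin n → ℂ) → ℂ) : Prop where
  pos : 0 < p
  op : IsOpen U
  conn : IsPreconnected U
  ne : U.Nonempty
  ta : ∀ i, AnalyticOnNhd ℂ (τ i) U
  im : ∀ i, ∀ x ∈ U, 0 < (τ i x).im
  nc : ∀ i, ∀ c, ∃ x ∈ U, τ i x ≠ c
  ji : ∀ i k, i ≠ k → ∀ P : MvPolynomial (Fin n ⊕ Fin 2) ℂ,
    (∀ x ∈ U, eval (Sum.elim x fun m => jf (τ (![i, k] m) x)) P = 0) → P = 0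
  wa : ∀ k, AnalyticOnNhd ℂ (w k) U
  wi : ∀ (m : Fin s → ℤ) (c : ℂ), (∀ x ∈ U, ∑ k, (m k : ℂ) * w k x = c) → m = 0

/-- the functions -/
def vj (τ : Fin p → (Fin n → ℂ) → ℂ) (w : Fin s → (Fin n → ℂ) → ℂ) : Nj p s → (Fin n → ℂ) → ℂ :=
  Sum.elim (fun q x => b4 q.2 (τ q.1 x)) (Sum.elim w (fun k x => Complex.exp (w k x)))

theorem vj_an (h : JF U τ w) (k : Nj p s) : AnalyticOnNhd ℂ (vj τ w k) U := by
  intro z hz
  rcases k with ⟨i, m⟩ | k | k
  · exact AnalyticAt.fun_comp (g := b4 m) (f := τ i) (b4_an m _ (h.im i z hz)) (h.ta i z hz)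
  · exact h.wa k z hz
  · exact (h.wa k z hz).cexp

theorem nonconst_near {V : Set (Fin n → ℂ)} (hV : IsPreconnected V) {f : (Fin n → ℂ) → ℂ}
    (hf : AnalyticOnNhd ℂ f V) {x₀ : Fin n → ℂ} (hx₀ : x₀ ∈ V) (h : ∀ c, ∃ x ∈ V, f x ≠ c) (c : ℂ) :
    ¬ ∀ᶠ x in 𝓝 x₀, f x = c := by
  intro hc
  obtain ⟨x, hx, hne⟩ := h c
  apply hne
  exact hf.eqOn_of_preconnected_of_eventuallyEq (g := fun _ => c) analyticOnNhd_const hV hx₀ hc hx

/-- **independence** -/
theorem exists_locM (h : JF U τ w) : ∃ e : Fin (3 * p + s) → Nj p s, Function.Injective e ∧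
    ∀ x ∈ U, LocIndM (fun k => vj τ w (e k)) x := by
  classical
  obtain ⟨x₀, hx₀⟩ := h.ne
  -- the pairs
  have hpair : ∀ q : {q : Fin p × Fin p // q.1 ≠ q.2},
      ∃ (T : Type) (_ : Countable T) (a : T → MvPolynomial (Fin n) ℂ), (∀ t, a t ≠ 0) ∧
      ∀ v, (∀ t, eval v (a t) ≠ 0) → ∀ P : MvPolynomial (Fin 2) ℂ,
        (∀ᶠ s in 𝓝 (0 : ℂ), eval (fun m => jf (τ (![q.1.1, q.1.2] m) (x₀ + s • v))) P = 0) → P = 0 := by
    intro q
    refine gen_line (fun (m : Fin 2) x => jf (τ (![q.1.1, q.1.2] m) x)) x₀ (fun m => ?_) ?_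
    · exact AnalyticAt.fun_comp (g := jf) (an_j _ (h.im _ _ hx₀)) (h.ta _ _ hx₀)
    · intro P hP
      refine h.ji q.1.1 q.1.2 q.2 P ?_
      have han : ∀ m : Fin 2, AnalyticOnNhd ℂ (fun x => jf (τ (![q.1.1, q.1.2] m) x)) U := fun m x hx =>
        AnalyticAt.fun_comp (g := jf) (an_j _ (h.im _ _ hx)) (h.ta _ _ hx)
      exact (eval_an han P).eqOn_zero_of_preconnected_of_eventuallyEq_zero h.conn hx₀ hP
  choose T1 hT1 a1 ha1 hv1 using hpair
  choose a2 ha2 hv2 using fun i => gen_line_nonconst (h.ta i x₀ hx₀) (nonconst_near h.conn (h.ta i) hx₀ (h.nc i))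
  have hla : ∀ m : Fin s → ℤ, AnalyticOnNhd ℂ (fun x => ∑ k, (m k : ℂ) * w k x) U := fun m z hz =>
    Finset.analyticAt_fun_sum _ fun k _ => analyticAt_const.mul (h.wa k z hz)
  have h3 : ∀ m : {m : Fin s → ℤ // m ≠ 0}, ∃ a : MvPolynomial (Fin n) ℂ, a ≠ 0 ∧ ∀ v, eval v a ≠ 0 →
      ∀ c, ¬ ∀ᶠ z in 𝓝 (0 : ℂ), (fun x => ∑ k, (m.1 k : ℂ) * w k x) (x₀ + z • v) = c := by
    intro m
    refine gen_line_nonconst (hla m.1 x₀ hx₀) (nonconst_near h.conn (hla m.1) hx₀ fun c => ?_)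
    by_contra hcon
    push Not at hcon
    exact m.2 (h.wi m.1 c hcon)
  choose a3 ha3 hv3 using h3
  obtain ⟨v, -, hv⟩ := exists_generic
    (T := (Σ q : {q : Fin p × Fin p // q.1 ≠ q.2}, T1 q) ⊕ (Fin p ⊕ {m : Fin s → ℤ // m ≠ 0}))
    (Sum.elim (fun t => a1 t.1 t.2) (Sum.elim a2 a3)) (by
      rintro (⟨q, t⟩ | i | m)
      · exact ha1 q t
      · exact ha2 i
      · exact ha3 m) isOpen_univ Set.univ_nonempty
  -- the line
  have hcont : Continuous fun z : ℂ => x₀ + z • v := continuous_const.add (continuous_id.smul continuous_const)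
  have h0 : ∀ᶠ z in 𝓝 (0 : ℂ), x₀ + z • v ∈ U := by
    have h1 := hcont.tendsto 0
    rw [zero_smul, add_zero] at h1
    exact h1.eventually (h.op.mem_nhds hx₀)
  obtain ⟨δ, hδ, hδU⟩ := Metric.eventually_nhds_iff_ball.1 h0
  have hline : ∀ z : ℂ, AnalyticAt ℂ (fun z : ℂ => x₀ + z • v) z := fun z =>
    analyticAt_const.add (analyticAt_id.smul analyticAt_const)
  have hev : ∀ {Q : ℂ → Prop}, (∀ z ∈ Metric.ball (0 : ℂ) δ, Q z) → ∀ᶠ z in 𝓝 (0 : ℂ), Q z := fun hQ =>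
    Filter.mem_of_superset (Metric.ball_mem_nhds 0 hδ) hQ
  have hF : Fmj (Metric.ball (0 : ℂ) δ) (fun i z => τ i (x₀ + z • v)) (fun k z => w k (x₀ + z • v)) :=
    { op := Metric.isOpen_ball
      conn := (convex_ball (0 : ℂ) δ).isPreconnected
      ne := ⟨0, Metric.mem_ball_self hδ⟩
      ta := fun i z hz => AnalyticAt.fun_comp (g := τ i) (h.ta i _ (hδU z hz)) (hline z)
      im := fun i z hz => h.im i _ (hδU z hz)
      nc := fun i c => by
        by_contra hcon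
        push Not at hcon
        exact hv2 i v (hv (Sum.inr (Sum.inl i))) c (hev hcon)
      ji := fun i k hik P hP => hv1 ⟨(i, k), hik⟩ v (fun t => hv (Sum.inl ⟨⟨(i, k), hik⟩, t⟩)) P (hev hP)
      wa := fun k z hz => AnalyticAt.fun_comp (g := w k) (h.wa k _ (hδU z hz)) (hline z)
      wi := fun m c hc => by
        by_contra hne
        exact hv3 ⟨m, hne⟩ v (hv (Sum.inr (Sum.inr ⟨m, hne⟩))) c (hev hc) }
  obtain ⟨e, he, hloc⟩ := exists_loc hF h.pos
  refine ⟨e, he, ?_⟩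
  have h4 := hloc 0 (Metric.mem_ball_self hδ)
  -- the polynomial curve
  set c : Fin n → Polynomial ℂ := fun j => Polynomial.C (x₀ j) + Polynomial.C (v j) * Polynomial.X with hc
  have hce : ∀ z : ℂ, (fun j => (c j).eval z) = x₀ + z • v := by
    intro z
    funext j
    simp only [hc, Polynomial.eval_add, Polynomial.eval_C, Polynomial.eval_mul, Polynomial.eval_X, Pi.add_apply,
      Pi.smul_apply, smul_eq_mul]
    ring
  have hc0 : (fun j => (c j).eval 0) = x₀ := by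
    rw [hce, zero_smul, add_zero]
  have h5 : LocIndM (fun k => vj τ w (e k)) x₀ := by
    rw [← hc0]
    refine locIndM_of_curve (fun k => vj τ w (e k)) c 0 (fun k => ?_) ?_
    · rw [hc0]
      exact vj_an h (e k) x₀ hx₀
    · have h6 : (fun (k : Fin (3 * p + s)) (z : ℂ) => vj τ w (e k) fun j => (c j).eval z) =
          fun k => yj (fun i z => τ i (x₀ + z • v)) (fun k z => w k (x₀ + z • v)) (e k) := by
        funext k z
        rw [hce]
        rcases e k with ⟨i, m⟩ | k | k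
        · rfl
        · rfl
        · rfl
      rw [h6]
      exact h4
  exact locIndM_all h.conn (fun k => vj_an h (e k)) hx₀ h.op h5

end Pool.Agent.W5h46.GV
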