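import Pool.Agent.W5h46.HL.Ger

/-!
# Poles and zeros in cosets of the integers
-/

set_option autoImplicit false
set_option linter.unusedSectionVars false

open Polynomial

namespace Pool.Agent.W5h46.GV

open Pool.Agent.W5h46.HL

variable {U : Type} [Fintype U]

/-- the denominators -/
noncomputable def DD (z : U → ℂ) (w : ℕ) : ℂ[X] := ∏ u, (X - C (z u)) ^ w

/-- the numerators of the principal parts -/
noncomputable def NU (z : U → ℂ) {w : ℕ} (β : U × Fin w → ℂ) (u : U) : ℂ[X] :=
  ∑ k : Fin w, C (β (u, k)) * (X - C (z u)) ^ (w - 1 - (k : ℕ))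

theorem NU_degree (z : U → ℂ) {w : ℕ} (β : U × Fin w → ℂ) (u : U) : (NU z β u).degree < w := by
  rcases Nat.eq_zero_or_pos w with h0 | hpos
  · subst h0
    simp [NU]
  · refine lt_of_le_of_lt (Polynomial.degree_sum_le _ _) ?_
    rw [Finset.sup_lt_iff (by exact_mod_cast WithBot.bot_lt_coe w)]
    intro k _
    have hk := k.2
    refine lt_of_le_of_lt (b := ((w - 1 - (k : ℕ) : ℕ) : WithBot ℕ)) ?_ (by exact_mod_cast (by omega : w - 1 - (k : ℕ) < w))
    rw [← smul_eq_C_mul]
    refine (degree_smul_le _ _).trans ?_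
    rw [degree_pow, degree_X_sub_C]
    simp

theorem NU_zero (z : U → ℂ) {w : ℕ} (β : U × Fin w → ℂ) (u : U) (h : NU z β u = 0) (k : Fin w) : β (u, k) = 0 := by
  have h1 : (NU z β u).comp (X + C (z u)) = ∑ k : Fin w, C (β (u, k)) * X ^ (w - 1 - (k : ℕ)) := by
    rw [NU, ← coe_compRingHom_apply, map_sum]
    refine Finset.sum_congr rfl fun k _ => ?_
    rw [map_mul, map_pow, map_sub]
    simp
  rw [h, zero_comp] at h1
  have h2 := congrArg (fun r => Polynomial.coeff r (w - 1 - (k : ℕ))) h1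
  simp only [Polynomial.finsetSum_coeff, Polynomial.coeff_C_mul, Polynomial.coeff_X_pow, Polynomial.coeff_zero] at h2
  rw [Finset.sum_eq_single k, if_pos rfl, mul_one] at h2
  · exact h2.symm
  · intro j _ hj
    rw [if_neg, mul_zero]
    intro h3
    apply hj
    have h4 := j.2
    have h5 := k.2
    exact Fin.ext (by omega)
  · simp

theorem pow_eq_zero_iff_of_pos' {a : ℂ} {w : ℕ} (h : a ^ w = 0) : a = 0 := by
  by_contra h0
  exact pow_ne_zero w h0 h

theorem DD_root {z : U → ℂ} {w : ℕ} {x : ℂ} (h : (DD z w).eval x = 0) : ∃ u, x = z u := by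
  classical
  rw [DD, eval_prod, Finset.prod_eq_zero_iff] at h
  obtain ⟨u, _, hu⟩ := h
  rw [eval_pow, eval_sub, eval_X, eval_C] at hu
  exact ⟨u, sub_eq_zero.1 (pow_eq_zero_iff_of_pos' hu)⟩

/-- `D (p(X+1) q - ν p q(X+1)) = N q q(X+1)` -/
theorem no_pole {z : U → ℂ} (hz : ∀ u v : U, ∀ m : ℤ, u ≠ v → z u - z v ≠ m) {w : ℕ} {p q : ℂ[X]} (hq : q ≠ 0)
    (hpq : IsCoprime p q) {ν : ℂ} (hν : ν ≠ 0) {N : ℂ[X]}
    (h : DD z w * (sh p * q - C ν * p * sh q) = N * q * sh q) : DD z w ∣ N := by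
  have hpq1 : IsCoprime (sh p) (sh q) := hpq.map sh
  have h1 : q ∣ DD z w * (C ν * sh q) := by
    have h2 : q ∣ p * (DD z w * (C ν * sh q)) := ⟨DD z w * sh p - N * sh q, by linear_combination -h⟩
    exact hpq.symm.dvd_of_dvd_mul_left h2
  have h2 : sh q ∣ DD z w * q := by
    have h2 : sh q ∣ sh p * (DD z w * q) := ⟨N * q + DD z w * (C ν * p), by linear_combination h⟩
    exact hpq1.symm.dvd_of_dvd_mul_left h2
  obtain ⟨c, hc⟩ : ∃ c, q = C c := by
    refine const_of_no_root fun x hx => ?_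
    have hfin := Polynomial.finite_setOfPred_isRoot hq
    have hup : ∀ y, q.IsRoot y → (∃ u, y = z u) ∨ q.IsRoot (y + 1) := by
      intro y hy
      obtain ⟨s, hs⟩ := h1
      have h3 := congrArg (eval y) hs
      rw [eval_mul, eval_mul, eval_C, sh_eval, eval_mul, hy.eq_zero, zero_mul] at h3
      rcases mul_eq_zero.1 h3 with h4 | h4
      · exact Or.inl (DD_root h4)
      · exact Or.inr ((mul_eq_zero.1 h4).resolve_left hν)
    have hdn : ∀ y, q.IsRoot y → (∃ u, y - 1 = z u) ∨ q.IsRoot (y - 1) := by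
      intro y hy
      obtain ⟨s, hs⟩ := h2
      have h3 := congrArg (eval (y - 1)) hs
      rw [eval_mul, eval_mul, sh_eval, sub_add_cancel, hy.eq_zero, zero_mul] at h3
      rcases mul_eq_zero.1 h3 with h4 | h4
      · exact Or.inl (DD_root h4)
      · exact Or.inr h4
    have h3 : ∃ m : ℕ, ∃ u, x + m = z u := by
      by_contra hcon
      push Not at hcon
      have h4 : ∀ m : ℕ, q.IsRoot (x + m) := by
        intro m
        induction m with
        | zero => simpa using hx
        | succ m ih =>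
          have := (hup _ ih).resolve_left fun ⟨u, hu⟩ => hcon m u hu
          rw [add_assoc] at this
          exact_mod_cast this
      exact Set.infinite_of_injective_forall_mem (f := fun m : ℕ => x + m) (fun a b hab => by
        have : (a : ℂ) = b := add_left_cancel hab
        exact_mod_cast this) h4 hfin
    have h4 : ∃ m : ℕ, ∃ u, x - m - 1 = z u := by
      by_contra hcon
      push Not at hcon
      have h5 : ∀ m : ℕ, q.IsRoot (x - m) := by
        intro m
        induction m with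
        | zero => simpa using hx
        | succ m ih =>
          have := (hdn _ ih).resolve_left fun ⟨u, hu⟩ => hcon m u hu
          rw [sub_sub] at this
          exact_mod_cast this
      exact Set.infinite_of_injective_forall_mem (f := fun m : ℕ => x - m) (fun a b hab => by
        have : (a : ℂ) = b := sub_right_injective hab
        exact_mod_cast this) h5 hfin
    obtain ⟨m, u, hm⟩ := h3
    obtain ⟨m', v, hm'⟩ := h4
    by_cases huv : u = v
    · subst huv
      have h5 : ((m + m' + 1 : ℕ) : ℂ) = 0 := by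
        push_cast
        linear_combination hm - hm'
      exact Nat.succ_ne_zero (m + m') (by exact_mod_cast h5)
    · refine hz u v (m + m' + 1) huv ?_
      push_cast
      rw [← hm, ← hm']
      ring
  subst hc
  have hc0 : c ≠ 0 := fun h2 => hq (by rw [h2, C_0])
  rw [sh_C] at h
  refine ⟨(sh p - C ν * p) * C c⁻¹, ?_⟩
  have h6 : C c * C c⁻¹ = (1 : ℂ[X]) := by rw [← C_mul, mul_inv_cancel₀ hc0, C_1]
  have h7 : (C c : ℂ[X]) ≠ 0 := C_ne_zero.2 hc0
  apply mul_left_cancel₀ h7
  apply mul_left_cancel₀ h7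
  linear_combination -h + (C c * DD z w * (C ν * p - sh p)) * h6

theorem sum_zero [DecidableEq U] {z : U → ℂ} (hz : Function.Injective z) {w : ℕ} (β : U × Fin w → ℂ)
    (h : DD z w ∣ ∑ u, NU z β u * ∏ v ∈ Finset.univ.erase u, (X - C (z v)) ^ w) : ∀ y, β y = 0 := by
  classical
  rintro ⟨u, k⟩
  refine NU_zero z β u ?_ k
  have h1 : (X - C (z u)) ^ w ∣ ∑ u, NU z β u * ∏ v ∈ Finset.univ.erase u, (X - C (z v)) ^ w :=
    (Finset.dvd_prod_of_mem (fun u => (X - C (z u)) ^ w) (Finset.mem_univ u)).trans h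
  rw [← Finset.add_sum_erase _ _ (Finset.mem_univ u)] at h1
  have h2 : (X - C (z u)) ^ w ∣ ∑ v ∈ Finset.univ.erase u, NU z β v * ∏ x ∈ Finset.univ.erase v, (X - C (z x)) ^ w := by
    refine Finset.dvd_sum fun v hv => ?_
    refine dvd_mul_of_dvd_right (Finset.dvd_prod_of_mem (fun u => (X - C (z u)) ^ w) ?_) _
    exact Finset.mem_erase.2 ⟨(Finset.ne_of_mem_erase hv).symm, Finset.mem_univ _⟩
  have h3 := (dvd_add_left h2).1 h1
  have h4 : IsCoprime ((X - C (z u)) ^ w) (∏ v ∈ Finset.univ.erase u, (X - C (z v)) ^ w) := by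
    refine IsCoprime.prod_right fun v hv => IsCoprime.pow ?_
    exact isCoprime_X_sub_C_of_isUnit_sub (sub_ne_zero.2 (fun h => Finset.ne_of_mem_erase hv (hz h).symm)).isUnit
  have h5 := h4.dvd_of_dvd_mul_right h3
  by_contra h6
  have h7 := degree_le_of_dvd h5 h6
  rw [degree_pow, degree_X_sub_C] at h7
  refine absurd (NU_degree z β u) (not_lt.2 (le_trans ?_ h7))
  simp

theorem fld {F : Type} [CommRing F] {D P Q SP SQ ν r σr S N : F} (h1 : r * Q = P) (h2 : σr * SQ = SP)
    (h3 : σr - ν * r = S) (h4 : D * S = N) : D * (SP * Q - ν * P * SQ) = N * Q * SQ := by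
  subst h1 h2 h3 h4
  ring

theorem fld2 {F : Type} [CommRing F] {b x i p : F} {m n k : ℕ} (h : x * i = 1) (h2 : m = n + k) :
    x ^ m * p * (b * i ^ k) = b * x ^ n * p := by
  subst h2
  have h3 : x ^ k * i ^ k = 1 := by rw [← mul_pow, h, one_pow]
  rw [pow_add]
  linear_combination (b * x ^ n * p) * h3

theorem hxz (a : ℂ) : xx - cst a = algebraMap (Polynomial ℂ) KK (X - C a) := by
  rw [map_sub]
  rfl

theorem xz_ne (a : ℂ) : xx - cst a ≠ 0 := by
  intro h0
  rw [hxz] at h0
  exact X_sub_C_ne_zero a (IsFractionRing.injective (Polynomial ℂ) KK (by rw [h0, map_zero]))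

theorem alg_NU (z : U → ℂ) {w : ℕ} (β : U × Fin w → ℂ) (u : U) :
    algebraMap (Polynomial ℂ) KK (NU z β u) = ∑ k : Fin w, cst (β (u, k)) * (xx - cst (z u)) ^ (w - 1 - (k : ℕ)) := by
  rw [NU, map_sum]
  refine Finset.sum_congr rfl fun k _ => ?_
  rw [map_mul, map_pow, ← hxz]
  rfl

theorem alg_sum [DecidableEq U] (z : U → ℂ) {w : ℕ} (β : U × Fin w → ℂ) :
    algebraMap (Polynomial ℂ) KK (DD z w) *
      ∑ y : U × Fin w, cst (β y) * (xx - cst (z y.1))⁻¹ ^ ((y.2 : ℕ) + 1) =
      algebraMap (Polynomial ℂ) KK (∑ u, NU z β u * ∏ v ∈ Finset.univ.erase u, (X - C (z v)) ^ w) := by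
  rw [map_sum, Fintype.sum_prod_type, Finset.mul_sum]
  refine Finset.sum_congr rfl fun u _ => ?_
  rw [map_mul, DD, ← Finset.mul_prod_erase Finset.univ _ (Finset.mem_univ u), map_mul, alg_NU, Finset.mul_sum,
    Finset.sum_mul, map_pow, ← hxz]
  refine Finset.sum_congr rfl fun k _ => ?_
  have hk := k.2
  exact fld2 (mul_inv_cancel₀ (xz_ne (z u))) (show w = w - 1 - (k : ℕ) + ((k : ℕ) + 1) by omega)

/-- the principal parts as rational functions -/
theorem frac_no_pole {z : U → ℂ} (hz : ∀ u v : U, ∀ m : ℤ, u ≠ v → z u - z v ≠ m) {w : ℕ} {r : KK} {ν : ℂ} (hν : ν ≠ 0)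
    (β : U × Fin w → ℂ)
    (h : sg r - cst ν * r = ∑ y : U × Fin w, cst (β y) * (xx - cst (z y.1))⁻¹ ^ ((y.2 : ℕ) + 1)) : ∀ y, β y = 0 := by
  classical
  have hinj0 : Function.Injective z := by
    intro u v huv
    by_contra hne
    exact hz u v 0 hne (by rw [huv]; simp)
  obtain ⟨p, q, hq, hpq, hpr⟩ := exists_frac r
  have hinj := IsFractionRing.injective (Polynomial ℂ) KK
  have h1 := congrArg sg hpr
  rw [map_mul, sg_alg, sg_alg] at h1
  have hmain : DD z w * (sh p * q - C ν * p * sh q) =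
      (∑ u, NU z β u * ∏ v ∈ Finset.univ.erase u, (X - C (z v)) ^ w) * q * sh q := by
    apply hinj
    rw [map_mul, map_sub, map_mul, map_mul, map_mul, map_mul, map_mul]
    exact fld hpr h1 h (alg_sum z β)
  exact sum_zero hinj0 β (no_pole hz hq hpq hν hmain)

end Pool.Agent.W5h46.GV
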