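import Pool.Agent.W5h46.GV.Pole

/-!
# Zeros in cosets of the integers: multiplicative independence
-/

set_option autoImplicit false
set_option linter.unusedSectionVars false

open Polynomial

namespace Pool.Agent.W5h46.GV

open Pool.Agent.W5h46.HL

variable {U : Type} [Fintype U]

theorem mult_sh (p : ℂ[X]) (y : ℂ) : (sh p).rootMultiplicity y = p.rootMultiplicity (y + 1) := by
  rw [rootMultiplicity_eq_rootMultiplicity, rootMultiplicity_eq_rootMultiplicity (t := y + 1)]
  congr 1
  simp only [sh, coe_compRingHom_apply]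
  rw [comp_assoc]
  congr 1
  simp
  ring

theorem mult_prod_ne {z : U → ℂ} (a : U → ℕ) {y : ℂ} (hy : ∀ u, z u ≠ y) :
    (∏ u, (X - C (z u)) ^ a u).rootMultiplicity y = 0 := by
  refine rootMultiplicity_eq_zero fun h => ?_
  rw [IsRoot, eval_prod, Finset.prod_eq_zero_iff] at h
  obtain ⟨u, _, hu⟩ := h
  rw [eval_pow, eval_sub, eval_X, eval_C] at hu
  exact hy u (sub_eq_zero.1 (pow_eq_zero_iff_of_pos' hu)).symm

theorem prod_ne {z : U → ℂ} (a : U → ℕ) (s : Finset U) : (∏ u ∈ s, (X - C (z u)) ^ a u) ≠ 0 :=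
  Finset.prod_ne_zero_iff.2 fun u _ => pow_ne_zero _ (X_sub_C_ne_zero _)

theorem mult_prod {z : U → ℂ} (hz : Function.Injective z) (a : U → ℕ) (u : U) :
    (∏ u, (X - C (z u)) ^ a u).rootMultiplicity (z u) = a u := by
  classical
  rw [← Finset.mul_prod_erase Finset.univ _ (Finset.mem_univ u), rootMultiplicity_mul (mul_ne_zero
    (pow_ne_zero _ (X_sub_C_ne_zero _)) (prod_ne _ _)), rootMultiplicity_X_sub_C_pow]
  have h1 : (∏ v ∈ Finset.univ.erase u, (X - C (z v)) ^ a v).rootMultiplicity (z u) = 0 := by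
    refine rootMultiplicity_eq_zero fun h => ?_
    rw [IsRoot, eval_prod, Finset.prod_eq_zero_iff] at h
    obtain ⟨v, hv, hu⟩ := h
    rw [eval_pow, eval_sub, eval_X, eval_C] at hu
    exact Finset.ne_of_mem_erase hv (hz (sub_eq_zero.1 (pow_eq_zero_iff_of_pos' hu)).symm)
  rw [h1, add_zero]

theorem exists_nonroot {p : ℂ[X]} (hp : p ≠ 0) (f : ℕ → ℂ) (hf : Function.Injective f) :
    {m : ℕ | p.IsRoot (f m)}.Finite :=
  (Polynomial.finite_setOfPred_isRoot hp).preimage hf.injOn

/-- multiplicities determine the exponents -/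
theorem exponents_eq {z : U → ℂ} (hz : ∀ u v : U, ∀ m : ℤ, u ≠ v → z u - z v ≠ m) (a b : U → ℕ) {A B : ℂ[X]}
    (hA : A ≠ 0) (hB : B ≠ 0) {c c' : ℂ} (hc : c ≠ 0) (hc' : c' ≠ 0)
    (h : C c * (∏ u, (X - C (z u)) ^ a u) * sh A * B = C c' * (∏ u, (X - C (z u)) ^ b u) * A * sh B) (u : U) :
    a u = b u := by
  classical
  have hinj : Function.Injective z := by
    intro u v huv
    by_contra hne
    exact hz u v 0 hne (by rw [huv]; simp)
  have hsA : sh A ≠ 0 := fun h2 => hA (sh_injective (by rw [h2, map_zero]))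
  have hsB : sh B ≠ 0 := fun h2 => hB (sh_injective (by rw [h2, map_zero]))
  have hCc : (C c : ℂ[X]) ≠ 0 := C_ne_zero.2 hc
  have hCc' : (C c' : ℂ[X]) ≠ 0 := C_ne_zero.2 hc'
  have hp : ∀ a : U → ℕ, (∏ u, (X - C (z u)) ^ a u) ≠ 0 := fun a => prod_ne a _
  have hm : ∀ y : ℂ, (∏ u, (X - C (z u)) ^ a u).rootMultiplicity y + A.rootMultiplicity (y + 1) +
      B.rootMultiplicity y = (∏ u, (X - C (z u)) ^ b u).rootMultiplicity y + A.rootMultiplicity y +
        B.rootMultiplicity (y + 1) := by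
    intro y
    have h1 := congrArg (rootMultiplicity y) h
    rw [rootMultiplicity_mul (mul_ne_zero (mul_ne_zero (mul_ne_zero hCc (hp a)) hsA) hB),
      rootMultiplicity_mul (mul_ne_zero (mul_ne_zero hCc (hp a)) hsA),
      rootMultiplicity_mul (mul_ne_zero hCc (hp a)),
      rootMultiplicity_mul (mul_ne_zero (mul_ne_zero (mul_ne_zero hCc' (hp b)) hA) hsB),
      rootMultiplicity_mul (mul_ne_zero (mul_ne_zero hCc' (hp b)) hA),
      rootMultiplicity_mul (mul_ne_zero hCc' (hp b)), rootMultiplicity_C, rootMultiplicity_C, zero_add, zero_add,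
      mult_sh, mult_sh] at h1
    exact h1
  have hoff : ∀ m : ℤ, m ≠ 0 → A.rootMultiplicity (z u + m + 1) + B.rootMultiplicity (z u + m) =
      A.rootMultiplicity (z u + m) + B.rootMultiplicity (z u + m + 1) := by
    intro m hm0
    have h1 := hm (z u + m)
    have h2 : ∀ v, z v ≠ z u + m := by
      intro v hv
      by_cases huv : v = u
      · subst huv
        have h3 : ((m : ℤ) : ℂ) = 0 := by linear_combination -hv
        exact hm0 (by exact_mod_cast h3)
      · exact hz v u m huv (by rw [hv]; ring)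
    rw [mult_prod_ne a h2, mult_prod_ne b h2] at h1
    omega
  have hon := hm (z u)
  rw [mult_prod hinj a u, mult_prod hinj b u] at hon
  -- up
  have hup : ∀ m : ℕ, (A.rootMultiplicity (z u + 1) : ℤ) - B.rootMultiplicity (z u + 1) =
      A.rootMultiplicity (z u + 1 + m) - B.rootMultiplicity (z u + 1 + m) := by
    intro m
    induction m with
    | zero => simp
    | succ m ih =>
      rw [ih]
      have h1 := hoff (m + 1) (by omega)
      have h2 : z u + ((m + 1 : ℤ) : ℂ) = z u + 1 + m := by push_cast; ring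
      have h3 : z u + 1 + ((m + 1 : ℕ) : ℂ) = z u + 1 + m + 1 := by push_cast; ring
      rw [h2] at h1
      rw [h3]
      omega
  have hdn : ∀ m : ℕ, (A.rootMultiplicity (z u) : ℤ) - B.rootMultiplicity (z u) =
      A.rootMultiplicity (z u - m) - B.rootMultiplicity (z u - m) := by
    intro m
    induction m with
    | zero => simp
    | succ m ih =>
      rw [ih]
      have h1 := hoff (-(m + 1)) (by omega)
      have h2 : z u + ((-(m + 1) : ℤ) : ℂ) + 1 = z u - m := by push_cast; ring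
      have h3 : z u + ((-(m + 1) : ℤ) : ℂ) = z u - ((m + 1 : ℕ) : ℂ) := by push_cast; ring
      rw [h2, h3] at h1
      omega
  have h1 : ∃ m : ℕ, ¬ A.IsRoot (z u + 1 + m) ∧ ¬ B.IsRoot (z u + 1 + m) := by
    have hf : Function.Injective fun m : ℕ => z u + 1 + (m : ℂ) := fun a b hab => by
      have : (a : ℂ) = b := add_left_cancel hab
      exact_mod_cast this
    by_contra hcon
    push Not at hcon
    refine Set.infinite_univ (α := ℕ) (((exists_nonroot hA _ hf).union (exists_nonroot hB _ hf)).subset fun m _ => ?_)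
    by_cases h2 : A.IsRoot (z u + 1 + m)
    · exact Or.inl h2
    · exact Or.inr (by simpa using hcon m h2)
  have h2 : ∃ m : ℕ, ¬ A.IsRoot (z u - m) ∧ ¬ B.IsRoot (z u - m) := by
    have hf : Function.Injective fun m : ℕ => z u - (m : ℂ) := fun a b hab => by
      have : (a : ℂ) = b := sub_right_injective hab
      exact_mod_cast this
    by_contra hcon
    push Not at hcon
    refine Set.infinite_univ (α := ℕ) (((exists_nonroot hA _ hf).union (exists_nonroot hB _ hf)).subset fun m _ => ?_)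
    by_cases h2 : A.IsRoot (z u - m)
    · exact Or.inl h2
    · exact Or.inr (by simpa using hcon m h2)
  obtain ⟨m, hm1, hm2⟩ := h1
  obtain ⟨m', hm3, hm4⟩ := h2
  have h3 := hup m
  have h4 := hdn m'
  rw [rootMultiplicity_eq_zero hm1, rootMultiplicity_eq_zero hm2] at h3
  rw [rootMultiplicity_eq_zero hm3, rootMultiplicity_eq_zero hm4] at h4
  omega

/-- the form used below -/
theorem frac_mult {J : Type} [Fintype J] {z : U → ℂ} (hz : ∀ u v : U, ∀ m : ℤ, u ≠ v → z u - z v ≠ m) (π : U → J)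
    (hπ : Function.Surjective π) (c : J → ℂ) (hc : ∀ j, c j ≠ 0) (q : J → KK)
    (hq : ∀ α : J →₀ ℕ, (∏ j, q j ^ α j) = cst (∏ j, c j ^ α j) * ∏ u, (xx - cst (z u)) ^ α (π u))
    (α β : J →₀ ℕ) (ρ : KK) (hρ : ρ ≠ 0) (h : (∏ j, q j ^ α j) * sg ρ = (∏ j, q j ^ β j) * ρ) : α = β := by
  obtain ⟨A, B, hB, _, hAB⟩ := exists_frac ρ
  have hinj := IsFractionRing.injective (Polynomial ℂ) KK
  have hB' : algebraMap (Polynomial ℂ) KK B ≠ 0 := fun h0 => hB (hinj (by rw [h0, map_zero]))
  have hA : A ≠ 0 := by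
    rintro rfl
    rw [map_zero] at hAB
    exact mul_ne_zero hρ hB' hAB
  have h1 := congrArg sg hAB
  rw [map_mul, sg_alg, sg_alg] at h1
  have hcne : ∀ α : J →₀ ℕ, (∏ j, c j ^ α j) ≠ 0 := fun α => Finset.prod_ne_zero_iff.2 fun j _ => pow_ne_zero _ (hc j)
  have halg : ∀ α : J →₀ ℕ, algebraMap (Polynomial ℂ) KK (C (∏ j, c j ^ α j) * ∏ u, (X - C (z u)) ^ α (π u)) =
      ∏ j, q j ^ α j := by
    intro α
    have h3 : algebraMap (Polynomial ℂ) KK (∏ u, (X - C (z u)) ^ α (π u)) = ∏ u, (xx - cst (z u)) ^ α (π u) := by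
      rw [map_prod]
      refine Finset.prod_congr rfl fun u _ => ?_
      rw [map_pow, hxz]
    rw [hq, map_mul, h3]
    rfl
  have hmain : C (∏ j, c j ^ α j) * (∏ u, (X - C (z u)) ^ α (π u)) * sh A * B =
      C (∏ j, c j ^ β j) * (∏ u, (X - C (z u)) ^ β (π u)) * A * sh B := by
    apply hinj
    rw [map_mul, map_mul, halg, map_mul, map_mul, halg, ← h1, ← hAB]
    generalize algebraMap (Polynomial ℂ) KK B = b at *
    generalize algebraMap (Polynomial ℂ) KK (sh B) = b' at *
    calc (∏ j, q j ^ α j) * (sg ρ * b') * b = ((∏ j, q j ^ α j) * sg ρ) * (b' * b) := by ring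
      _ = _ := by rw [h]; ring
  have h2 := exponents_eq hz (fun u => α (π u)) (fun u => β (π u)) hA hB (hcne α) (hcne β) hmain
  ext j
  obtain ⟨u, rfl⟩ := hπ j
  exact h2 u

end Pool.Agent.W5h46.GV
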